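import Pool.Agent.Lib.MP_6e81d8_ag.H39.Wv
import Pool.Agent.Lib.MP_6e81d8_ag.H87.Column

/-!
One weighted point and a region of monomials read by columns; a monomial substitution.
-/

set_option autoImplicit false

namespace Pool.Agent.Lib.MP_6e81d8_ag.H39

open Polynomial Finset H88 H87
open scoped Polynomial.Bivariate

lemma exists_far_mod {J : Finset ℕ} {x k : ℕ} (h : x + 1 ≤ J.card)
    (hk : ∀ a ∈ J, ∀ b ∈ J, a % k = b % k) : ∃ a ∈ J, ∃ b ∈ J, a + k * x ≤ b := by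
  have h1 : (J.image (· / k)).card = J.card := card_image_of_injOn fun a ha b hb hab => by
    have h2 : a / k = b / k := hab
    rw [← Nat.div_add_mod a k, ← Nat.div_add_mod b k, h2, hk a ha b hb]
  obtain ⟨a', ha', b', hb', h2⟩ := exists_far (h.trans h1.ge)
  obtain ⟨a, ha, rfl⟩ := mem_image.mp ha'
  obtain ⟨b, hb, rfl⟩ := mem_image.mp hb'
  refine ⟨a, ha, b, hb, ?_⟩
  have h3 := Nat.mul_le_mul_left k h2
  have h4 := Nat.div_add_mod a k
  have h5 := Nat.div_add_mod b k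
  have h6 := hk a ha b hb
  rw [mul_add] at h3
  omega

theorem column_abs {D : ℕ → ℕ → Prop} {k : ℕ} {lo hi l r γ s M : ℝ} (hs : 0 < s) (hγ : 0 ≤ γ)
    (h1 : γ ≤ l + r) (h2 : hi - lo < M) (hk : ∀ i a b, D i a → D i b → a % k = b % k)
    (hD : ∀ x i a b : ℕ, D i a → D i b → a + k * x ≤ b →
      lo + l * x ≤ s * i ∧ s * i ≤ hi - r * x) {f : ℂ[X][Y]} (hf : Sup D f)
    (hv : ZV (fun i j => s * i + γ * j < M) 1 1 f) : f = 0 := by
  classical
  by_contra hne
  let J : ℕ → Finset ℕ := fun i => (range (f.natDegree + 1)).filter fun k => cf f i k ≠ 0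
  have hJ : ∀ i k, k ∈ J i ↔ cf f i k ≠ 0 := by
    intro i k
    refine ⟨fun h => (mem_filter.mp h).2, fun h => mem_filter.mpr ⟨mem_range.mpr ?_, h⟩⟩
    exact Nat.lt_succ_of_le (le_natDegree_of_ne_zero fun h1 => h (by rw [cf, h1, coeff_zero]))
  have hex : ∃ x i, (J i).card = x + 1 := by
    obtain ⟨i, k, h⟩ := exists_cf_ne_zero hne
    have := card_pos.mpr ⟨k, (hJ i k).mpr h⟩
    exact ⟨(J i).card - 1, i, by omega⟩
  obtain ⟨i0, hi0⟩ := Nat.find_spec hex
  set x := Nat.find hex with hx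
  have hmin : ∀ i, (J i).Nonempty → x + 1 ≤ (J i).card := by
    intro i hi
    have h1 := card_pos.mpr hi
    have h2 : x ≤ (J i).card - 1 := Nat.find_min' hex ⟨i, by omega⟩
    omega
  obtain ⟨j0, hj0⟩ : (J i0).Nonempty := card_pos.mp (by omega)
  set U := (J i0).erase j0 with hU
  have hUc : U.card = x := by rw [hU, card_erase_of_mem hj0, hi0, Nat.add_sub_cancel]
  set ψ : ℂ[X] := ∑ k ∈ range (f.natDegree + 1), C (∏ u ∈ U, ((k : ℂ) - u)) * f.coeff k with hψ
  have c1 : ∀ i, ψ.coeff i =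
      ∑ k ∈ range (f.natDegree + 1), (∏ u ∈ U, ((k : ℂ) - u)) * cf f i k := by
    intro i
    simp only [hψ, finsetSum_coeff, coeff_C_mul, cf]
  have c2 : ψ ≠ 0 := by
    intro h0
    have h1 := c1 i0
    rw [h0, coeff_zero, sum_eq_single j0] at h1
    · refine mul_ne_zero (prod_ne_zero_iff.mpr fun u hu h2 => ?_) ((hJ _ _).mp hj0) h1.symm
      exact (mem_erase.mp hu).1 (Nat.cast_injective (R := ℂ) (sub_eq_zero.mp h2)).symm
    · intro k _ hk
      by_cases h2 : cf f i0 k = 0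
      · rw [h2, mul_zero]
      · rw [prod_eq_zero (mem_erase.mpr ⟨hk, (hJ _ _).mpr h2⟩) (sub_self _), zero_mul]
    · exact fun h2 => absurd (mem_filter.mp hj0).1 h2
  have c3 : ∀ i, ψ.coeff i ≠ 0 → lo + l * x ≤ s * i ∧ s * i ≤ hi - r * x := by
    intro i hi
    rw [c1] at hi
    obtain ⟨k, -, hk'⟩ := exists_ne_zero_of_sum_ne_zero hi
    obtain ⟨a, ha, b, hb, hab⟩ := exists_far_mod
      (hmin i ⟨k, (hJ _ _).mpr (right_ne_zero_of_mul hk')⟩)
      fun a ha b hb => hk i a b (hf _ _ ((hJ _ _).mp ha)) (hf _ _ ((hJ _ _).mp hb))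
    exact hD x i a b (hf _ _ ((hJ _ _).mp ha)) (hf _ _ ((hJ _ _).mp hb)) hab
  have c4 : (X - C 1) ^ ⌈(M - γ * x) / s⌉₊ ∣ ψ := by
    obtain ⟨G, g1, g2⟩ := exists_euler_zv hγ hv U
    have h3 : (X - C 1) ^ ⌈(M - γ * x) / s⌉₊ ∣ (sh 0 1 G).coeff 0 := row_dvd_iff.mp fun i hi => by
      apply g1
      have := (lt_div_iff₀ hs).mp (Nat.lt_ceil.mp hi)
      rw [hUc]
      push_cast
      linarith
    have h4 : (sh 0 1 G).coeff 0 = G.eval (C 1) := by
      rw [coeff_zero_eq_eval_zero]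
      have : (evalRingHom 0).comp (sh (0 : ℂ) 1) = evalRingHom (C 1) := by
        apply Polynomial.ringHom_ext
        · intro p
          simp
        · simp
      exact congrArg (fun g : ℂ[X][Y] →+* ℂ[X] => g G) this
    have h5 : G.natDegree < f.natDegree + 1 := by
      rw [Nat.lt_succ_iff, natDegree_le_iff_coeff_eq_zero]
      intro k hk
      rw [g2, coeff_eq_zero_of_natDegree_lt hk, mul_zero]
    rw [h4, eval_eq_sum_range' h5] at h3
    simpa only [g2, C_1, one_pow, mul_one] using h3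
  have c5 := sum_le_natDegree (ι := Bool) (x := fun o => if o then 1 else 0)
    (k := fun o => if o then ⌈(M - γ * x) / s⌉₊ else ψ.natTrailingDegree) ?_ c2 ?_
  · rw [Fintype.sum_bool] at c5
    have h3 := (c3 _ (trailingCoeff_eq_zero.not.mpr c2)).1
    have h4 := (c3 _ (leadingCoeff_ne_zero.mpr c2)).2
    have h5 : (⌈(M - γ * x) / s⌉₊ : ℝ) + ψ.natTrailingDegree ≤ ψ.natDegree := by
      exact_mod_cast c5
    have h6 := (div_le_iff₀ hs).mp (Nat.le_ceil ((M - γ * x) / s))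
    have h7 := mul_le_mul_of_nonneg_right h1 (Nat.cast_nonneg (α := ℝ) x)
    have h8 := mul_le_mul_of_nonneg_left h5 hs.le
    linarith
  · rintro (_ | _) (_ | _) h <;> simp_all
  · rintro (_ | _)
    · simp only [Bool.false_eq_true, if_false, map_zero, sub_zero]
      rw [X_pow_dvd_iff]
      exact fun k hk => coeff_eq_zero_of_lt_natTrailingDegree hk
    · exact c4

/-- The substitution `X ↦ X ^ k`, `Y ↦ X ^ p * Y`. -/
noncomputable def tau (k p : ℕ) : ℂ[X][Y] →ₗ[ℂ] ℂ[X][Y] where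
  toFun := sub2 (X ^ k) (C (X ^ p) * Y)
  map_add' := map_add _
  map_smul' := fun c f => by
    rw [smul_eq_CC, map_mul, sub2_C, C_comp, smul_eq_CC, RingHom.id_apply]

lemma coeff_tau (k p : ℕ) (f : ℂ[X][Y]) (j : ℕ) :
    (tau k p f).coeff j = X ^ (p * j) * expand ℂ k (f.coeff j) := by
  induction f using Polynomial.induction_on' with
  | add p q hp hq => rw [map_add, coeff_add, coeff_add, hp, hq, map_add, mul_add]
  | monomial n g =>
    show (sub2 (X ^ k) (C (X ^ p) * Y) (monomial n g)).coeff j = _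
    rw [← C_mul_X_pow_eq_monomial, map_mul, map_pow (sub2 _ _), sub2_C, sub2_Y, mul_pow,
      ← C_pow, ← mul_assoc, ← C_mul, coeff_C_mul_X_pow, coeff_C_mul_X_pow]
    split_ifs with h
    · rw [h, pow_mul, mul_comm, expand_eq_comp_X_pow]
    · rw [map_zero, mul_zero]

lemma tau_eq_zero {k : ℕ} (hk : 0 < k) (p : ℕ) {f : ℂ[X][Y]} (h : tau k p f = 0) : f = 0 := by
  ext1 j
  have := coeff_tau k p f j
  rw [h, coeff_zero] at this
  exact (expand_eq_zero hk).mp
    ((mul_eq_zero.mp this.symm).resolve_left (pow_ne_zero _ X_ne_zero))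

lemma sup_tau {k : ℕ} (hk : 0 < k) (p : ℕ) {D : ℕ → ℕ → Prop} {f : ℂ[X][Y]} (h : Sup D f) :
    Sup (fun n j => ∃ i, n = k * i + p * j ∧ D i j) (tau k p f) := by
  intro n j hn
  rw [cf, coeff_tau, coeff_X_pow_mul'] at hn
  split_ifs at hn with h1
  · rw [coeff_expand hk] at hn
    split_ifs at hn with h2
    · exact ⟨_, by rw [Nat.mul_div_cancel' h2, Nat.sub_add_cancel h1], h _ _ hn⟩
    · exact absurd rfl hn
  · exact absurd rfl hn

lemma van_tau (k p : ℕ) {m : ℕ} {a b : ℂ} {f : ℂ[X][Y]} (h : Van m (a ^ k) (a ^ p * b) f) :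
    Van m a b (tau k p f) := by
  apply van_transfer (sub2 (X ^ k) (C (X ^ p) * Y)) (mx a b) _ _ h
  · rw [sub2_C]
    exact C_mem_mx (by simp)
  · rw [mem_mx_iff]
    have : b * a ^ p - a ^ p * b = 0 := by ring
    simpa [evalEval] using this

end Pool.Agent.Lib.MP_6e81d8_ag.H39
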