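import Mathlib

set_option autoImplicit false

namespace Pool.Agent.Lib.MP_6e81d8_ag.H39

/-- `Packs t w h S`: the squares of sides `t i`, `i ∈ S`, have a guillotine packing into a
rectangle of width `w` and height `h`. -/
inductive Packs {ι : Type} [DecidableEq ι] (t : ι → ℝ) : ℝ → ℝ → Finset ι → Prop
  | square (i : ι) : 0 < t i → Packs t (t i) (t i) {i}
  | beside {w₁ w₂ h : ℝ} {S₁ S₂ : Finset ι} : Packs t w₁ h S₁ → Packs t w₂ h S₂ →
      Disjoint S₁ S₂ → Packs t (w₁ + w₂) h (S₁ ∪ S₂)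
  | above {w h₁ h₂ : ℝ} {S₁ S₂ : Finset ι} : Packs t w h₁ S₁ → Packs t w h₂ S₂ →
      Disjoint S₁ S₂ → Packs t w (h₁ + h₂) (S₁ ∪ S₂)
  | enlarge {w h w' h' : ℝ} {S : Finset ι} : Packs t w h S → w ≤ w' → h ≤ h' → Packs t w' h' S

end Pool.Agent.Lib.MP_6e81d8_ag.H39
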