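import Mathlib

set_option autoImplicit false

namespace Pool.Agent.Lib.MP_6e81d8_ag.H39

/-- `Fills t w h S`: the squares of sides `t i`, `i ∈ S`, can be brought into a rectangle of width
`w` and height `h` by guillotine packing and by folding at most three strips in three. -/
inductive Fills {ι : Type} [DecidableEq ι] (t : ι → ℝ) : ℝ → ℝ → Finset ι → Prop
  | square (i : ι) : 0 < t i → Fills t (t i) (t i) {i}
  | beside {w₁ w₂ h : ℝ} {S₁ S₂ : Finset ι} : Fills t w₁ h S₁ → Fills t w₂ h S₂ →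
      Disjoint S₁ S₂ → Fills t (w₁ + w₂) h (S₁ ∪ S₂)
  | swap {w h : ℝ} {S : Finset ι} : Fills t w h S → Fills t h w S
  | enlarge {w h w' h' : ℝ} {S : Finset ι} : Fills t w h S → w ≤ w' → h ≤ h' → Fills t w' h' S
  | fold {a b c u v s w : ℝ} {A B C : Finset ι} (q : ℕ) : (A.Nonempty → Fills t a u A) →
      (B.Nonempty → Fills t b v B) → Fills t c s C → Disjoint A B → Disjoint (A ∪ B) C →
      0 ≤ a → 0 ≤ b → 0 < v → v ≤ u → ((q : ℝ) * s = u ∨ (q : ℝ) * s = v) → 3 * u ≤ w →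
      a + b ≤ 3 * w → a * u + b * v + c * s ≤ 3 * w * u → Fills t w (3 * u) (A ∪ B ∪ C)

end Pool.Agent.Lib.MP_6e81d8_ag.H39
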