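import Pool.Agent.Lib.MP_6e81d8_ag.H87.Main

/-!
The degeneration to the normal cone of a cubic, for polynomials of bounded weighted degree.
-/

set_option autoImplicit false

namespace Pool.Agent.Lib.MP_6e81d8_ag.H39

open Polynomial Finset H88 H87
open scoped Polynomial.Bivariate

attribute [local irreducible] io

section Deg

variable {A : Type} [CommRing A] {h w R R' : ℝ}

/-- Weighted degree at most `R`, with weights `h` and `w`. -/
def Wd (h w R : ℝ) (f : A[X][Y]) : Prop := Sup (fun i k => h * i + w * k ≤ R) f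

lemma wd_zero : Wd h w R (0 : A[X][Y]) := fun i k c => absurd (cf_zero i k) c

lemma Wd.add {f g : A[X][Y]} (hf : Wd h w R f) (hg : Wd h w R g) : Wd h w R (f + g) := by
  intro i k c
  rw [cf_add] at c
  by_cases h1 : cf f i k = 0
  · exact hg i k (by rwa [h1, zero_add] at c)
  · exact hf i k h1

lemma Wd.mul {f g : A[X][Y]} (hf : Wd h w R f) (hg : Wd h w R' g) : Wd h w (R + R') (f * g) := by
  intro i k c
  rw [cf_mul] at c
  obtain ⟨x, hx, h1⟩ := exists_ne_zero_of_sum_ne_zero c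
  obtain ⟨y, hy, h2⟩ := exists_ne_zero_of_sum_ne_zero h1
  have h3 := hf _ _ (left_ne_zero_of_mul h2)
  have h4 := hg _ _ (right_ne_zero_of_mul h2)
  rw [HasAntidiagonal.mem_antidiagonal] at hx hy
  rw [← hx, ← hy]
  push_cast
  linarith

lemma Wd.mono {f : A[X][Y]} (hf : Wd h w R f) (c : R ≤ R') : Wd h w R' f :=
  fun i k h1 => (hf i k h1).trans c

lemma Wd.sub {f g : A[X][Y]} (hf : Wd h w R f) (hg : Wd h w R g) : Wd h w R (f - g) := by
  rw [sub_eq_add_neg]
  refine hf.add fun i k c => hg i k fun h1 => c ?_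
  unfold cf at h1 ⊢
  rw [coeff_neg, coeff_neg, h1, neg_zero]

lemma wd_C (hh : 0 ≤ h) {d : ℕ} {r : A[X]} (c : r.natDegree ≤ d) :
    Wd h w (h * d) (C r : A[X][Y]) := by
  intro i k h1
  unfold cf at h1
  rw [coeff_C] at h1
  split_ifs at h1 with h2
  · have h3 : (i : ℝ) ≤ d := by exact_mod_cast (le_natDegree_of_ne_zero h1).trans c
    rw [h2, Nat.cast_zero, mul_zero, add_zero]
    exact mul_le_mul_of_nonneg_left h3 hh
  · exact absurd (coeff_zero _) h1

lemma wd_Y (n : ℕ) : Wd h w (w * n) (Y ^ n : A[X][Y]) := by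
  intro i k h1
  unfold cf at h1
  rw [coeff_X_pow] at h1
  split_ifs at h1 with h2
  · rw [coeff_one] at h1
    split_ifs at h1 with h3
    · rw [h2, h3, Nat.cast_zero, mul_zero, zero_add]
    · exact absurd rfl h1
  · exact absurd (coeff_zero _) h1

lemma wd_cub (hh : 0 ≤ h) (hw : h ≤ w) (a b δ : A) : Wd h w (3 * w) (cub a b δ) := by
  have h1 : (C δ * X : A[X]).natDegree ≤ 1 := by compute_degree
  have h2 : (C a * X ^ 3 + C b : A[X]).natDegree ≤ 3 := by compute_degree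
  have h3 := (wd_C (w := w) hh h1).mul (wd_Y 1)
  rw [pow_one] at h3
  refine ((wd_Y 3).mono ?_).add ((h3.mono ?_).add ((wd_C hh h2).mono ?_)) <;> push_cast <;> linarith

lemma div_cub_w (hh : 0 ≤ h) (hw : h ≤ w) (a b δ : A) : ∀ (n : ℕ) (f : A[X][Y]),
    f.natDegree ≤ n → Wd h w R f →
    ∃ q r, f = cub a b δ * q + r ∧ r.natDegree ≤ 2 ∧ Wd h w R r ∧ Wd h w (R - 3 * w) q := by
  intro n
  induction n with
  | zero => exact fun f h1 h2 => ⟨0, f, by simp, by omega, h2, wd_zero⟩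
  | succ n ih =>
    intro f h1 h2
    by_cases h3 : f.natDegree ≤ 2
    · exact ⟨0, f, by simp, h3, h2, wd_zero⟩
    have hf : f ≠ 0 := by
      rintro rfl
      simp at h3
    have : Nontrivial A[X] := Nontrivial.of_polynomial_ne hf
    have : Nontrivial A := by
      obtain ⟨x, y, hxy⟩ := exists_pair_ne A[X]
      exact Nontrivial.of_polynomial_ne hxy
    have hl : f.leadingCoeff ≠ 0 := leadingCoeff_ne_zero.mpr hf
    have h4 : h * f.leadingCoeff.natDegree + w * f.natDegree ≤ R :=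
      h2 _ _ (leadingCoeff_ne_zero.mpr hl)
    set u : A[X][Y] := C f.leadingCoeff * Y ^ (f.natDegree - 3) with hu
    have h5 : Wd h w (R - 3 * w) u := ((wd_C hh le_rfl).mul (wd_Y _)).mono (by
      rw [Nat.cast_sub (by omega)]
      push_cast
      linarith)
    have h6 : (f - cub a b δ * u).degree < f.degree := by
      refine degree_sub_lt_left ?_ hf ?_
      · rw [(cub_monic a b δ).degree_mul_comm, (cub_monic a b δ).degree_mul, hu,
          degree_C_mul_X_pow _ hl, degree_eq_natDegree (cub_monic a b δ).ne_zero, cub_natDegree,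
          degree_eq_natDegree hf, ← Nat.cast_add]
        congr 1
        omega
      · rw [leadingCoeff_monic_mul (cub_monic a b δ), hu, leadingCoeff_C_mul_X_pow]
    have h7 : (f - cub a b δ * u).natDegree ≤ n := by
      by_cases h0 : f - cub a b δ * u = 0
      · rw [h0, natDegree_zero]
        omega
      · have := natDegree_lt_natDegree h0 h6
        omega
    obtain ⟨q, r, e1, e2, e3, e4⟩ :=
      ih _ h7 (h2.sub (((wd_cub hh hw a b δ).mul h5).mono (by linarith)))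
    exact ⟨q + u, r, by linear_combination e1, e2, e3, e4.add h5⟩

lemma expand_cub_w (hh : 0 ≤ h) (hw : h ≤ w) (a b δ : A) : ∀ (N : ℕ) (R : ℝ) (f : A[X][Y]),
    R < 3 * w * N → Wd h w R f →
    ∃ G : ℕ → A[X][Y], (∀ j, (G j).natDegree ≤ 2 ∧ Wd h w (R - 3 * w * j) (G j)) ∧
      f = ∑ j ∈ range N, cub a b δ ^ j * G j := by
  intro N
  induction N with
  | zero =>
    intro R f h1 h2
    refine ⟨fun _ => 0, fun _ => ⟨by simp, wd_zero⟩, ?_⟩
    by_contra h0
    obtain ⟨i, k, h3⟩ := exists_cf_ne_zero (f := f) (by simpa using h0)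
    have h4 := h2 i k h3
    have h5 := mul_nonneg hh (Nat.cast_nonneg (α := ℝ) i)
    have h6 := mul_nonneg (hh.trans hw) (Nat.cast_nonneg (α := ℝ) k)
    rw [Nat.cast_zero, mul_zero] at h1
    linarith
  | succ N ih =>
    intro R f h1 h2
    obtain ⟨q, r, e1, e2, e3, e4⟩ := div_cub_w hh hw a b δ _ f le_rfl h2
    obtain ⟨G, g1, g2⟩ := ih (R - 3 * w) q (by push_cast at h1; linarith) e4
    refine ⟨fun j => Nat.casesOn j r G, fun j => ?_, ?_⟩
    · cases j with
      | zero => exact ⟨e2, e3.mono (by simp)⟩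
      | succ j => exact ⟨(g1 j).1, (g1 j).2.mono (by push_cast; linarith)⟩
    · have h3 : ∑ j ∈ range N, cub a b δ ^ (j + 1) * G j = cub a b δ * q := by
        rw [g2, mul_sum]
        exact sum_congr rfl fun j _ => by ring
      rw [sum_range_succ', pow_zero, one_mul]
      exact e1.trans (congrArg (· + r) h3.symm)

lemma Wd.dg (hh : 0 < h) (hw : h ≤ w) {d j : ℕ} (hd : R < h * (d + 1)) {f : A[X][Y]}
    (hf : Wd h w (R - 3 * w * j) f) : Dg (3 * j) d f := by
  intro i k c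
  have h1 := hf i k c
  have h2 := mul_le_mul_of_nonneg_right hw (Nat.cast_nonneg (α := ℝ) k)
  have h3 := mul_le_mul_of_nonneg_right hw (Nat.cast_nonneg (α := ℝ) j)
  have h4 : (i : ℝ) + k + 3 * j < d + 1 := lt_of_mul_lt_mul_left (by linarith) hh.le
  have h5 : i + k + 3 * j < d + 1 := by exact_mod_cast h4
  omega

end Deg

lemma exists_expand_w {F : Type} [Field F] {h w R : ℝ} (hh : 0 < h) (hw : h ≤ w) (a b δ : F)
    {d : ℕ} (hd : R < h * (d + 1)) {f : F[X][X][Y]} (hf : f ≠ 0) (hR : Wd h w R f) :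
    ∃ (G : ℕ → F[X][X][Y]) (μ : ℕ),
      (∀ j, (G j).natDegree ≤ 2 ∧ Wd h w (R - 3 * w * j) (G j)) ∧
      f = ∑ j ∈ range (d + 1), cub (C a) (C b) (C δ) ^ j * G j ∧
      (∀ j < d + 1, ∀ l, j + l < μ → slice l (G j) = 0) ∧
      ∃ j < d + 1, j ≤ μ ∧ slice (μ - j) (G j) ≠ 0 := by
  classical
  obtain ⟨G, g1, g2⟩ := expand_cub_w hh.le hw (C a) (C b) (C δ) (d + 1) R f (by
    push_cast
    nlinarith [Nat.cast_nonneg (α := ℝ) d]) hR
  have hex : ∃ μ, ∃ j < d + 1, j ≤ μ ∧ slice (μ - j) (G j) ≠ 0 := by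
    by_contra hc
    apply hf
    rw [g2]
    refine sum_eq_zero fun j hj => ?_
    by_cases h0 : G j = 0
    · rw [h0, mul_zero]
    · obtain ⟨l, hl⟩ := exists_slice_ne_zero h0
      exact absurd ⟨j + l, j, mem_range.mp hj, by omega, by rwa [Nat.add_sub_cancel_left]⟩ hc
  refine ⟨G, Nat.find hex, g1, g2, ?_, Nat.find_spec hex⟩
  intro j hj l hl
  by_contra h0
  exact Nat.find_min hex hl ⟨j, hj, by omega, by rwa [Nat.add_sub_cancel_left]⟩

variable (P : Par)

lemma Θ_pad {e c : ℕ} {g : P2 K} (hg : Dg 0 e g) : Θ P (e + c) g = th P 0 ^ c * Θ P e g := by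
  let F := FractionRing B
  let ρ : B →+* F := algebraMap B F
  have hρ : Function.Injective ρ := IsFractionRing.injective B F
  have h0 : ρ (th P 0) ≠ 0 := fun h => th_ne_zero P 0 (hρ (by rw [h, map_zero]))
  have e1 : ρ (th P 1) = ρ (th P 0) * (ρ (th P 1) / ρ (th P 0)) := (mul_div_cancel₀ _ h0).symm
  have e2 : ρ (th P 2) = ρ (th P 0) * (ρ (th P 2) / ρ (th P 0)) := (mul_div_cancel₀ _ h0).symm
  apply hρ
  rw [map_mul, map_pow, Θ, Θ, Hm_eval io ρ e1 e2 hg (by omega), Hm_eval io ρ e1 e2 hg le_rfl,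
    pow_add]
  ring

lemma lead_th {n₀ : ℤ} (h3 : (3 : ℤ) ∣ n₀) (h1 : 2 * P.b * n₀ < P.g + 2 * (2 * P.b))
    (h2 : P.g - 2 * P.b < 2 * P.b * n₀) : (th P 0).leadingCoeff = LaurentPolynomial.T n₀ := by
  obtain ⟨n, c1, c2⟩ := th_lead P 0
  have r2 : Rel (2 * P.b) P.g 1 (th P 2) (th P 0) := by
    have := rel_th P 2
    rwa [th_congr P (r := 2 + 1) (r' := 0) (by norm_num)] at this
  obtain ⟨c3, c4⟩ := window (s := (th P 0).order) (n := n) (rel_th P 0) (rel_th P 1) r2 (by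
    rw [A, ← HahnSeries.leadingCoeff_eq, c2, LaurentPolynomial.T_apply, if_pos rfl]
    exact one_ne_zero) fun s' n' hs' => by
      rw [A, HahnSeries.coeff_eq_zero_of_lt_order hs']
      rfl
  have hb := P.hb
  have c5 : n < n₀ + 3 := lt_of_mul_lt_mul_left (a := 2 * P.b) (by push_cast at c4; linarith)
    (by linarith)
  have c6 : n₀ < n + 3 := lt_of_mul_lt_mul_left (a := 2 * P.b) (by push_cast at c3; linarith)
    (by linarith)
  rw [c2, show n = n₀ by omega]

lemma lead_window {n₀ : ℤ} (hn : (th P 0).leadingCoeff = LaurentPolynomial.T n₀) {e c : ℕ}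
    {g : P2 K} (hg : Dg 0 e g) {n : ℤ} (h0 : (Θ P (e + c) g).leadingCoeff.coeff n ≠ 0) :
    e * (P.g - 2 * P.b) ≤ 2 * P.b * (n - c * n₀) ∧
      2 * P.b * (n - c * n₀) ≤ e * (P.g + 2 * (2 * P.b)) := by
  rw [Θ_pad P hg, HahnSeries.leadingCoeff_mul, lead_pow, hn, LaurentPolynomial.T_pow,
    LaurentPolynomial.T, AddMonoidAlgebra.coeff_single_mul_apply, one_mul, neg_add_eq_sub] at h0
  refine Θ_window P (g := g) (s := (Θ P e g).order) ?_ fun s' n' hs' => ?_
  · rwa [A, ← HahnSeries.leadingCoeff_eq]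
  · rw [A, HahnSeries.coeff_eq_zero_of_lt_order hs']
    rfl

/-- The monomials `z ^ n * y ^ j` allowed in weighted degree `R`. -/
def Wn (n₀ : ℤ) (h w R : ℝ) (d n j : ℕ) : Prop :=
  ∃ e c : ℕ, e + c + 3 * j = d ∧ h * e + 3 * w * j ≤ R ∧
    e * (P.g - 2 * P.b) ≤ 2 * P.b * (n - c * n₀) ∧
    2 * P.b * (n - c * n₀) ≤ e * (P.g + 2 * (2 * P.b))

theorem tate_emp_w (hg : 2 * P.b ≤ P.g) {n₀ : ℤ} (hn0 : 0 ≤ n₀)
    (hn : (th P 0).leadingCoeff = LaurentPolynomial.T n₀) {a b δ : K}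
    (hc : th P 2 ^ 3 + io δ * (th P 0 * th P 1 * th P 2) +
      io a * th P 1 ^ 3 + io b * th P 0 ^ 3 = 0) {h w R : ℝ} (hh : 0 < h) (hw : h ≤ w)
    {ι : Type} {d : ℕ} (hd : R < h * (d + 1)) {m : ι → ℕ} {z : ι → ℂˣ}
    {y : ι → ℂ} (h0 : ∀ i, ez (z i) (th P 0) ≠ 0)
    (hl : ∀ i, ez (z i) (lam io (th P 0) (th P 1) (th P 2) δ) ≠ 0)
    (H : Emp (Wn P n₀ h w R d) m (fun i => (z i : ℂ)) y) :
    Emp (A := P1 K) (fun i k => h * i + w * k ≤ R) m (fun i => pa (th P 0) (th P 1) (ez (z i)))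
      (fun i => pb io (th P 0) (th P 1) (th P 2) (ez (z i)) δ (HahnSeries.C (y i))) := by
  classical
  intro f hR hv
  by_contra hf
  obtain ⟨G, μ, g1, g2, g3, j0, g4, g5, g6⟩ := exists_expand_w hh hw a b δ hd hf hR
  have g7 : ∀ j, Dg (3 * j) d (G j) := fun j => (g1 j).2.dg hh hw hd
  set r := row io (th P 0) (th P 1) (th P 2) d μ G with hr
  have r1 : ∀ j, r j ≠ 0 → slice (μ - j) (G j) ≠ 0 ∧
      r j = Θ P (d - 3 * j) (slice (μ - j) (G j)) := by
    intro j hj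
    rw [hr, row] at hj ⊢
    split_ifs at hj ⊢ with h1
    · refine ⟨fun h2 => hj ?_, rfl⟩
      rw [h2]
      simp [Hm]
    · exact absurd rfl hj
  have r2 : r j0 ≠ 0 := by
    rw [hr, row, if_pos g5]
    exact fun h1 => g6 (Θ_inj P hc (s := 3 * j0) (d := d) ((g7 j0).slice _) (by omega)
      ((slice_natDegree _ _).trans (g1 j0).1) h1)
  obtain ⟨j1, hj1, hmin⟩ := exists_min_image ((range (d + 1)).filter fun j => r j ≠ 0)
    (fun j => (r j).order) ⟨j0, mem_filter.mpr ⟨mem_range.mpr g4, r2⟩⟩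
  obtain ⟨hj2, hj3⟩ := mem_filter.mp hj1
  set s := (r j1).order with hs
  have r3 : ∀ j < d + 1, ∀ n : ℤ, ((r j).coeff s).coeff n ≠ 0 →
      ∃ e c : ℕ, e + c + 3 * j = d ∧ h * e + 3 * w * j ≤ R ∧
        e * (P.g - 2 * P.b) ≤ 2 * P.b * (n - c * n₀) ∧
        2 * P.b * (n - c * n₀) ≤ e * (P.g + 2 * (2 * P.b)) := by
    intro j hj n hn'
    have h1 : r j ≠ 0 := fun h2 => hn' (by rw [h2]; rfl)
    obtain ⟨h2, h3⟩ := r1 j h1
    have h4 : s = (r j).order := le_antisymm (hmin j (mem_filter.mpr ⟨mem_range.mpr hj, h1⟩))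
      (HahnSeries.order_le_of_coeff_ne_zero fun h5 => hn' (by rw [h5]; rfl))
    have h5 : Wd h w (R - 3 * w * j) (slice (μ - j) (G j)) := (g1 j).2.slice _
    have h6 : Dg (3 * j) d (slice (μ - j) (G j)) := (g7 j).slice _
    rw [h4, ← HahnSeries.leadingCoeff_eq, h3] at hn'
    generalize slice (μ - j) (G j) = g at h2 h5 h6 hn'
    have hex : ∃ e, Dg 0 e g := ⟨d, h6.mono (by omega)⟩
    obtain ⟨i, k, h7, h8⟩ : ∃ i k, cf g i k ≠ 0 ∧ i + k = Nat.find hex := by
      by_contra h9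
      obtain ⟨i, k, h7⟩ := exists_cf_ne_zero h2
      have h10 := Nat.find_spec hex i k h7
      refine Nat.find_min hex (m := Nat.find hex - 1) ?_ fun i' k' h11 => ?_
      · have : i + k ≠ Nat.find hex := fun h11 => h9 ⟨i, k, h7, h11⟩
        omega
      · have h12 := Nat.find_spec hex i' k' h11
        have : i' + k' ≠ Nat.find hex := fun h13 => h9 ⟨i', k', h11, h13⟩
        omega
    have h9 := h6 i k h7
    have h10 := h5 i k h7
    have h11 := mul_le_mul_of_nonneg_right hw (Nat.cast_nonneg (α := ℝ) k)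
    refine ⟨i + k, d - 3 * j - (i + k), by omega, by push_cast; linarith,
      lead_window P hn (h8 ▸ Nat.find_spec hex) ?_⟩
    rwa [show i + k + (d - 3 * j - (i + k)) = d - 3 * j by omega]
  have r4 : ∀ j < d + 1, ∃ q : ℂ[X], toLaurent q = (r j).coeff s := by
    intro j hj
    refine exists_toLaurent fun n hn' => ?_
    obtain ⟨e, c, -, -, h1, -⟩ := r3 j hj n hn'
    have h2 : 0 ≤ (e : ℤ) * (P.g - 2 * P.b) := mul_nonneg (Nat.cast_nonneg _) (by omega)
    have h3 := P.hb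
    have h4 : 0 ≤ n - c * n₀ := le_of_mul_le_mul_left (a := 2 * P.b) (by linarith) (by linarith)
    have h5 := mul_nonneg (Nat.cast_nonneg (α := ℤ) c) hn0
    linarith
  choose! q hq using r4
  have r5 : ∀ k, (∑ j ∈ range (d + 1), C (q j) * Y ^ j : ℂ[X][Y]).coeff k =
      if k < d + 1 then q k else 0 := by
    intro k
    simp only [finsetSum_coeff, coeff_C_mul, coeff_X_pow, mul_ite, mul_one, mul_zero, sum_ite_eq,
      mem_range]
  have r6 := H (∑ j ∈ range (d + 1), C (q j) * Y ^ j) ?_ fun i =>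
    local_van P hc (z i) (y i) (h0 i) (hl i) g7 g3 (g2 ▸ hv i) s q hq
  · have h1 := r5 j1
    rw [r6, coeff_zero, if_pos (mem_range.mp hj2)] at h1
    have h2 := hq j1 (mem_range.mp hj2)
    rw [← h1, map_zero] at h2
    exact hj3 (HahnSeries.coeff_order_eq_zero.mp h2.symm)
  · intro i k hik
    rw [cf, r5] at hik
    split_ifs at hik with h1
    · rw [← coeff_toLaurent_nat, hq k h1] at hik
      exact r3 k h1 i hik
    · exact absurd (coeff_zero _) hik

lemma bdd_wd {h w : ℝ} (hh : 0 < h) (hw : 0 < w) (R : ℝ) :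
    Bdd (fun i k => h * i + w * k ≤ R) := by
  obtain ⟨N, hN⟩ := exists_nat_gt (max (R / h) (R / w))
  have h1 := (div_lt_iff₀ hh).mp ((le_max_left _ _).trans_lt hN)
  have h2 := (div_lt_iff₀ hw).mp ((le_max_right _ _).trans_lt hN)
  refine ⟨N, fun i k c => ?_⟩
  have h3 := mul_nonneg hh.le (Nat.cast_nonneg (α := ℝ) i)
  have h4 := mul_nonneg hw.le (Nat.cast_nonneg (α := ℝ) k)
  have h5 : (i : ℝ) < N := lt_of_mul_lt_mul_left (by linarith) hh.le
  have h6 : (k : ℝ) < N := lt_of_mul_lt_mul_left (by linarith) hw.le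
  exact ⟨by exact_mod_cast h5, by exact_mod_cast h6⟩

theorem tate_generic_w (hg : 2 * P.b ≤ P.g) {n₀ : ℤ} (hn0 : 0 ≤ n₀)
    (hn : (th P 0).leadingCoeff = LaurentPolynomial.T n₀) {h w R : ℝ} (hh : 0 < h) (hw : h ≤ w)
    {ι : Type} [Fintype ι] {d : ℕ} (hd : R < h * (d + 1)) {m : ι → ℕ}
    {z y : ι → ℂ} (hz : ∀ i, z i ≠ 0) (H : Emp (Wn P n₀ h w R d) m z y) :
    ∃ F : MvPolynomial (ι × Fin 2) ℂ, F ≠ 0 ∧ ∀ p : ι → Fin 2 → ℂ,
      MvPolynomial.eval (fun ij : ι × Fin 2 => p ij.1 ij.2) F ≠ 0 →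
      Emp (fun i k => h * i + w * k ≤ R) m (fun i => p i 0) (fun i => p i 1) := by
  classical
  obtain ⟨a, b, δ, hc⟩ := exists_cubic P
  obtain ⟨p, hp, hp'⟩ := ez_ne_zero (mul_ne_zero (th_ne_zero P 0) (lam_ne_zero P δ))
  have h1 : (X * ∏ i, p.comp (C (z i) * X) : ℂ[X]) ≠ 0 :=
    mul_ne_zero X_ne_zero (prod_ne_zero_iff.mpr fun i _ => by
      rw [Ne, comp_C_mul_X_eq_zero_iff (mem_nonZeroDivisors_of_ne_zero (hz i))]
      exact hp)
  obtain ⟨κ, hκ⟩ := exists_eval_ne_zero h1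
  rw [eval_mul, eval_X, eval_prod] at hκ
  have hκ0 : κ ≠ 0 := left_ne_zero_of_mul hκ
  let u : ι → ℂˣ := fun i => Units.mk0 (κ * z i) (mul_ne_zero hκ0 (hz i))
  have h2 : ∀ i, ez (u i) (th P 0) * ez (u i) (lam io (th P 0) (th P 1) (th P 2) δ) ≠ 0 := by
    intro i
    rw [← map_mul]
    apply hp'
    have := prod_ne_zero_iff.mp (right_ne_zero_of_mul hκ) i (mem_univ i)
    rwa [eval_comp, eval_mul, eval_C, eval_X, mul_comm] at this
  have h3 := tate_emp_w P hg hn0 hn hc hh hw hd (z := u) (fun i => left_ne_zero_of_mul (h2 i))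
    (fun i => right_ne_zero_of_mul (h2 i)) (emp_scale H hκ0)
  have hD := bdd_wd hh (hh.trans_le hw) R
  generalize (fun i => pa (th P 0) (th P 1) (ez (u i))) = pa' at h3
  generalize (fun i => pb io (th P 0) (th P 1) (th P 2) (ez (u i)) δ (HahnSeries.C (y i))) = pb'
    at h3
  have h4 := emp_of_map (U := MvPolynomial (ι × Fin 2) ℂ) (A' := P1 K)
    (MvPolynomial.eval₂Hom ((C : K →+* P1 K).comp HahnSeries.C)
      fun ij : ι × Fin 2 => ![pa' ij.1, pb' ij.1] ij.2) hD (m := m)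
    (a := fun j => MvPolynomial.X (j, 0)) (b := fun j => MvPolynomial.X (j, 1)) (by
      simpa only [MvPolynomial.eval₂Hom_X', Matrix.cons_val_zero, Matrix.cons_val_one] using h3)
  obtain ⟨F, hF, H'⟩ := emp_open hD h4
  refine ⟨F, hF, fun p hp => ?_⟩
  simpa only [MvPolynomial.eval_X] using H' ℂ _ hp

end Pool.Agent.Lib.MP_6e81d8_ag.H39
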