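import Pool.Agent.Lib.MP_6e81d8_ag.H39.Tile
import Pool.Agent.Lib.MP_6e81d8_ag.H39.Col
import Pool.Agent.Lib.MP_6e81d8_ag.H39.Tate

/-!
Points which impose emptiness on a triangle of monomials collide to a weighted point.
-/

set_option autoImplicit false

namespace Pool.Agent.Lib.MP_6e81d8_ag.H39

open Polynomial Finset H88 H87
open scoped Polynomial.Bivariate

variable {ι : Type}

lemma emp_swap {D : ℕ → ℕ → Prop} {m : ι → ℕ} {a b : ι → ℂ} (h : Emp D m a b) :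
    Emp (fun i j => D j i) m b a := fun f hf hv =>
  (map_eq_zero_iff _ (Bivariate.swap (R := ℂ)).injective).mp
    (h _ (fun i j hij => hf j i (by rwa [cf_swap] at hij)) fun i => van_swap (hv i))

/-- The multiplicities restricted to `S`. -/
def mS [DecidableEq ι] (S : Finset ι) (m : ι → ℕ) (i : ι) : ℕ := if i ∈ S then m i else 0

lemma van_mS [DecidableEq ι] {A : Type} [CommRing A] {S : Finset ι} {m : ι → ℕ} {a b : ι → A}
    {f : A[X][Y]} : (∀ i, Van (mS S m i) (a i) (b i) f) ↔ ∀ i ∈ S, Van (m i) (a i) (b i) f := by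
  refine forall_congr' fun i => ?_
  unfold mS
  split_ifs with c
  · simp [c]
  · simp [c, van_order_zero]

lemma generic_of_point [Fintype ι] {D : ℕ → ℕ → Prop} (hD : Bdd D) {m : ι → ℕ} {a b : ι → ℂ}
    (h : Emp D m a b) : ∃ F : MvPolynomial (ι × Fin 2) ℂ, F ≠ 0 ∧ ∀ p : ι → Fin 2 → ℂ,
      MvPolynomial.eval (fun ij : ι × Fin 2 => p ij.1 ij.2) F ≠ 0 →
      Emp D m (fun i => p i 0) (fun i => p i 1) := by
  have h4 := emp_generic (A := MvPolynomial (ι × Fin 2) ℂ)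
    (MvPolynomial.eval fun ij : ι × Fin 2 => ![a ij.1, b ij.1] ij.2) MvPolynomial.C
    (fun x => MvPolynomial.eval_C x) hD (m := m)
    (a := fun j => MvPolynomial.X (j, 0)) (b := fun j => MvPolynomial.X (j, 1)) (by
      simpa only [MvPolynomial.eval_X, Matrix.cons_val_zero, Matrix.cons_val_one] using h)
  obtain ⟨F, hF, H⟩ := emp_open hD h4
  refine ⟨F, hF, fun p hp => ?_⟩
  simpa only [MvPolynomial.eval_X] using H ℂ _ hp

lemma point_of_generic {F : MvPolynomial (ι × Fin 2) ℂ} (hF : F ≠ 0) :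
    ∃ p : ι → Fin 2 → ℂ, MvPolynomial.eval (fun ij : ι × Fin 2 => p ij.1 ij.2) F ≠ 0 := by
  by_contra h
  refine hF (MvPolynomial.funext fun x => ?_)
  rw [map_zero]
  by_contra h2
  exact h ⟨fun i k => x (i, k), h2⟩

theorem special_family {V : Submodule ℂ ℂ[X][Y]} [FiniteDimensional ℂ V] {κ : Type} [Fintype κ]
    (a b : κ → ℂ[X]) (i j : κ → ℕ)
    (h : ∀ G : ℂ[X][X][Y], (∀ t : ℂ, G.map (mapRingHom (evalRingHom t)) ∈ V) →
      (∀ z, cf (sh (a z) (b z) G) (i z) (j z) = 0) → G.map (mapRingHom (evalRingHom 0)) = 0)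
    {E : ℂ[X]} (hE : E ≠ 0) : ∃ t : ℂ, E.eval t ≠ 0 ∧ ∀ f ∈ V,
      (∀ z, cf (sh ((a z).eval t) ((b z).eval t) f) (i z) (j z) = 0) → f = 0 := by
  classical
  obtain ⟨n, e, e1, e2, e3⟩ := exists_basis V
  let g : Fin n → ℂ[X][X][Y] := fun x => (e x).map (mapRingHom C)
  have hg : ∀ x (t : ℂ), (g x).map (mapRingHom (evalRingHom t)) = e x := by
    intro x t
    refine cf_ext fun i k => ?_
    simp only [g, cf_map, coe_evalRingHom, eval_C]
  let M : Matrix κ (Fin n) ℂ[X] := Matrix.of fun z x => cf (sh (a z) (b z) (g x)) (i z) (j z)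
  have hM : ∀ c, M.mulVec c = 0 → c = 0 := by
    intro c hc
    by_contra hne
    have hex : ∃ v, ∃ x, (c x).coeff v ≠ 0 := by
      obtain ⟨x, hx⟩ := Function.ne_iff.mp hne
      exact ⟨_, x, leadingCoeff_ne_zero.mpr hx⟩
    obtain ⟨x₀, hx₀⟩ := Nat.find_spec hex
    have hdvd : ∀ x, X ^ Nat.find hex ∣ c x := fun x => X_pow_dvd_iff.mpr fun u hu => by
      by_contra h1
      exact Nat.find_min hex hu ⟨x, h1⟩
    choose c' hc' using hdvd
    have hev : ∀ t : ℂ, (∑ x, C (C (c' x)) * g x : ℂ[X][X][Y]).map (mapRingHom (evalRingHom t))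
        = ∑ x, (c' x).eval t • e x := by
      intro t
      simp only [Polynomial.map_sum, Polynomial.map_mul, hg, map_C, coe_mapRingHom,
        coe_evalRingHom, smul_eq_CC]
    have h1 := h (∑ x, C (C (c' x)) * g x)
      (fun t => by rw [hev]; exact V.sum_mem fun x _ => V.smul_mem _ (e1 x)) ?_
    · rw [hev] at h1
      have h2 := e2 _ h1 x₀
      apply hx₀
      have h3 := coeff_X_pow_mul (c' x₀) (Nat.find hex) 0
      rw [zero_add, ← hc'] at h3
      rw [h3, coeff_zero_eq_eval_zero, h2]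
    · intro z
      have h2 := congrFun hc z
      simp only [M, Matrix.mulVec, dotProduct, Matrix.of_apply, Pi.zero_apply] at h2
      have h3 : (X : ℂ[X]) ^ Nat.find hex *
          cf (sh (a z) (b z) (∑ x, C (C (c' x)) * g x)) (i z) (j z) = 0 := by
        rw [← h2, map_sum, cf_sum, mul_sum]
        refine sum_congr rfl fun x _ => ?_
        rw [map_mul, sh_C, C_comp, cf_CC_mul, hc' x]
        ring
      exact (mul_eq_zero.mp h3).resolve_left (pow_ne_zero _ X_ne_zero)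
  obtain ⟨D, hD, H⟩ := ker_trivial_open M hM
  obtain ⟨t, ht⟩ := exists_eval_ne_zero (mul_ne_zero hE hD)
  rw [eval_mul] at ht
  refine ⟨t, left_ne_zero_of_mul ht, fun f hf hv => ?_⟩
  obtain ⟨c, h1⟩ := e3 f hf
  have h2 := H ℂ (evalRingHom t) (right_ne_zero_of_mul ht) c ?_
  · rw [h1, h2]
    simp
  · funext z
    have h3 := hv z
    rw [h1, map_sum, cf_sum] at h3
    simp only [M, Matrix.mulVec, dotProduct, Matrix.of_apply, Matrix.map_apply, Pi.zero_apply]
    rw [← h3]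
    refine sum_congr rfl fun x _ => ?_
    rw [smul_eq_CC, map_mul, sh_C, C_comp, cf_CC_mul, ← cf_map, sh_map, hg, mul_comm]
    rfl

lemma exists_weights {w h : ℝ} (hw : 0 < w) (hh : 0 < h) (M : ℝ) : ∃ (p q : ℕ) (R : ℝ), 0 < p ∧
    R < M ∧ ∀ i j i' j' : ℕ, h * i + w * j < M → p * i' + q * j' ≤ p * i + q * j →
      h * i' + w * j' ≤ R := by
  obtain ⟨N, hN⟩ := bdd_tri hw hh M
  obtain ⟨s, hs⟩ := (bdd_tri hw hh M).exists_finset
  obtain ⟨R, h1, h2⟩ : ∃ R < M, ∀ i j : ℕ, h * i + w * j < M → h * i + w * j ≤ R := by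
    rcases s.eq_empty_or_nonempty with c | c
    · exact ⟨M - 1, by linarith, fun i j hij => absurd (c ▸ (hs i j).mpr hij) (notMem_empty _)⟩
    · obtain ⟨x, c1, c2⟩ := exists_max_image s (fun x => h * x.1 + w * x.2) c
      exact ⟨_, (hs x.1 x.2).mp c1, fun i j hij => c2 (i, j) ((hs i j).mpr hij)⟩
  obtain ⟨K, hK⟩ := exists_nat_gt (4 * (N + 1) / (M - R))
  rw [div_lt_iff₀ (by linarith)] at hK
  have hN0 : (0 : ℝ) ≤ N := Nat.cast_nonneg N
  have hK0 : (0 : ℝ) < K := lt_of_mul_lt_mul_right (a := M - R) (by linarith) (by linarith)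
  refine ⟨⌈K * h⌉₊, ⌈K * w⌉₊, (R + M) / 2, Nat.ceil_pos.mpr (mul_pos hK0 hh), by linarith,
    fun i j i' j' c1 c2 => le_of_mul_le_mul_left ?_ hK0⟩
  have c3 : (⌈K * h⌉₊ : ℝ) * i' + ⌈K * w⌉₊ * j' ≤ ⌈K * h⌉₊ * i + ⌈K * w⌉₊ * j := by
    exact_mod_cast c2
  have c4 : (i : ℝ) < N := by exact_mod_cast (hN i j c1).1
  have c5 : (j : ℝ) < N := by exact_mod_cast (hN i j c1).2
  have c6 := mul_le_mul_of_nonneg_right (Nat.le_ceil (K * h)) (Nat.cast_nonneg (α := ℝ) i')
  have c7 := mul_le_mul_of_nonneg_right (Nat.le_ceil (K * w)) (Nat.cast_nonneg (α := ℝ) j')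
  have c8 := mul_le_mul_of_nonneg_right (Nat.ceil_lt_add_one (mul_pos hK0 hh).le).le
    (Nat.cast_nonneg (α := ℝ) i)
  have c9 := mul_le_mul_of_nonneg_right (Nat.ceil_lt_add_one (mul_pos hK0 hw).le).le
    (Nat.cast_nonneg (α := ℝ) j)
  have c10 := mul_le_mul_of_nonneg_left (h2 i j c1) hK0.le
  linarith

variable [DecidableEq ι]

/-- Emptiness on the triangles of monomials below the level `M`. -/
def Ell (m : ι → ℕ) (M w h : ℝ) (S : Finset ι) : Prop :=
  ∀ R < M, ∃ a b : ι → ℂ, Emp (fun i j => h * i + w * j ≤ R) (mS S m) a b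

/-- The weighted point of level `M` splits into the points indexed by `S`. -/
def Gd (m : ι → ℕ) (M w h : ℝ) (S : Finset ι) : Prop :=
  ∀ a b : ℂ, a ≠ 0 → Good m (zvS (fun i j => h * i + w * j < M) a b) S

omit [DecidableEq ι] in
lemma Gd.scale {m : ι → ℕ} {M w h M' w' h' u : ℝ} {S : Finset ι} (H : Gd m M w h S) (hu : 0 < u)
    (h1 : M' = u * M) (h2 : w' = u * w) (h3 : h' = u * h) : Gd m M' w' h' S := by
  intro a b ha V hV H'
  refine H a b ha V hV fun f hf hw => H' f hf fun i j hij => hw i j ?_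
  rw [h1, h2, h3] at hij
  exact lt_of_mul_lt_mul_left (by linarith) hu.le

theorem Gd.ell {m : ι → ℕ} {M w h : ℝ} {S : Finset ι} (H : Gd m M w h S) (hw : 0 < w)
    (hh : 0 < h) : Ell m M w h S := by
  intro R hR
  obtain ⟨a, b, -, h1⟩ := H 1 1 one_ne_zero (supS fun i j => h * i + w * j ≤ R)
    (supS_finite (bdd_wd hh hw R)) fun f hf hz =>
      column_abs (k := 1) (lo := 0) (hi := R) (l := 0) (r := w) hh hw.le (by linarith)
        (by linarith) (fun _ _ _ _ _ => by omega) (fun x i a b _ c1 c2 => by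
          have c3 : (a : ℝ) + 1 * x ≤ b := by exact_mod_cast c2
          have c4 := mul_le_mul_of_nonneg_left
            (show (x : ℝ) ≤ b by linarith [Nat.cast_nonneg (α := ℝ) a]) hw.le
          have c5 := mul_nonneg hh.le (Nat.cast_nonneg (α := ℝ) i)
          constructor <;> linarith) hf hz
  exact ⟨a, b, fun f hf hv => h1 f hf (van_mS.mp hv)⟩

omit [DecidableEq ι] in
theorem special_points {V : Submodule ℂ ℂ[X][Y]} [FiniteDimensional ℂ V] {S : Finset ι}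
    {m : ι → ℕ} (a b : ι → ℂ[X])
    (h : ∀ G : ℂ[X][X][Y], (∀ t : ℂ, G.map (mapRingHom (evalRingHom t)) ∈ V) →
      (∀ k ∈ S, Van (m k) (a k) (b k) G) → G.map (mapRingHom (evalRingHom 0)) = 0)
    {E : ℂ[X]} (hE : E ≠ 0) : ∃ t : ℂ, E.eval t ≠ 0 ∧ ∀ f ∈ V,
      (∀ k ∈ S, Van (m k) ((a k).eval t) ((b k).eval t) f) → f = 0 := by
  obtain ⟨s, hs⟩ : ∃ s : Finset (ι × ℕ × ℕ), ∀ x, x ∈ s ↔ x.1 ∈ S ∧ x.2.1 + x.2.2 < m x.1 := by
    refine ⟨(S ×ˢ (range (S.sup m) ×ˢ range (S.sup m))).filter fun x => x.2.1 + x.2.2 < m x.1,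
      fun x => ?_⟩
    simp only [mem_filter, mem_product, mem_range]
    refine ⟨fun c => ⟨c.1.1, c.2⟩, fun c => ⟨⟨c.1, ?_⟩, c.2⟩⟩
    have := le_sup (f := m) c.1
    omega
  obtain ⟨u, hu, h3⟩ := special_family (V := V) (κ := s)
    (fun z => a z.1.1) (fun z => b z.1.1) (fun z => z.1.2.1) (fun z => z.1.2.2)
    (fun G hG hz => h G hG fun k hk => van_iff_cf.mpr fun i j hij =>
      hz ⟨(k, i, j), (hs _).mpr ⟨hk, hij⟩⟩) hE
  exact ⟨u, hu, fun f hf hv => h3 f hf fun z =>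
    van_iff_cf.mp (hv _ ((hs _).mp z.2).1) _ _ ((hs _).mp z.2).2⟩

lemma zv_limit {m : ι → ℕ} {S : Finset ι} {a b : ι → ℂ} {α β : ℂ} {p q i j : ℕ}
    (h1 : Emp (fun i' j' => p * i' + q * j' ≤ p * i + q * j) (mS S m) a b) {G : ℂ[X][X][Y]}
    (hv : ∀ k ∈ S, Van (m k) (X ^ p * C (a k) + C α) (X ^ q * C (b k) + C β) G) :
    cf (sh α β (G.map (mapRingHom (evalRingHom 0)))) i j = 0 := by
  by_contra c
  have c1 : (cf (sh (C α) (C β) G) i j).coeff 0 ≠ 0 := by
    rw [coeff_zero_eq_eval_zero, ← coe_evalRingHom, ← cf_map, sh_map]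
    simpa using c
  have c0 : ∀ k ∈ S, Van (m k) (C (a k)) (C (b k))
      (sub2 (C (X ^ p) * X) (C (C (X ^ q)) * Y) (sh (C α) (C β) G)) :=
    fun k hk => van_scale (van_sh (hv k hk))
  have hH : ∀ i k, cf (sub2 (C (X ^ p) * X) (C (C (X ^ q)) * Y) (sh (C α) (C β) G)) i k =
      X ^ (p * i + q * k) * cf (sh (C α) (C β) G) i k := fun i k => by
    rw [cf_scale, ← pow_mul, ← pow_mul, ← pow_add]
  generalize sub2 (C (X ^ p) * X) (C (C (X ^ q)) * Y) (sh (C α) (C β) G) = H at c0 hH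
  have c2 : (cf H i j).coeff (0 + (p * i + q * j)) ≠ 0 := by rwa [hH, coeff_X_pow_mul]
  obtain ⟨v, g, g0, g1, g2, g3⟩ := exists_limit (m := mS S m) (a := fun k => C (a k))
    (b := fun k => C (b k)) (H := H) (fun h0 => c2 (by rw [h0, cf_zero, coeff_zero]))
    (van_mS.mpr c0)
  refine g0 (h1 g (fun i' j' c3 => ?_) (by simpa only [eval_C] using g1))
  rw [g2, hH, coeff_X_pow_mul'] at c3
  have c4 : ¬ 0 + (p * i + q * j) < v := fun c5 => c2 (g3 _ _ _ c5)
  split_ifs at c3 with c5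
  · omega
  · exact absurd rfl c3

theorem Ell.gd {m : ι → ℕ} {M w h : ℝ} {S : Finset ι} (H : Ell m M w h S) (hw : 0 < w)
    (hh : 0 < h) : Gd m M w h S := by
  intro α β hα V hV H'
  obtain ⟨p, q, R, hp, hR, hpq⟩ := exists_weights hw hh M
  obtain ⟨a, b, h1⟩ := H R hR
  have h2 : ∀ k, (X ^ p * C (a k) + C α : ℂ[X]) ≠ 0 := fun k c => hα (by
    simpa [hp.ne'] using congrArg (eval 0) c)
  obtain ⟨u, hu, h3⟩ := special_points (V := V) (S := S) (m := m)
    (fun k => X ^ p * C (a k) + C α) (fun k => X ^ q * C (b k) + C β)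
    (fun G hG hv => H' _ (hG 0) fun i j hij =>
      zv_limit (h1.mono fun i' j' c => hpq i j i' j' hij c) hv)
    (E := ∏ k ∈ S, (X ^ p * C (a k) + C α)) (prod_ne_zero_iff.mpr fun k _ => h2 k)
  rw [eval_prod, prod_ne_zero_iff] at hu
  refine ⟨fun k => if k ∈ S then (X ^ p * C (a k) + C α).eval u else 1,
    fun k => (X ^ q * C (b k) + C β).eval u, fun k => ?_, fun f hf hv => h3 f hf fun k hk => ?_⟩
  · dsimp only
    split_ifs with c
    · exact hu k c
    · exact one_ne_zero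
  · simpa only [if_pos hk] using hv k hk

end Pool.Agent.Lib.MP_6e81d8_ag.H39
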