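import Pool.Agent.Lib.MP_6e81d8_ag.H39.Main
import Pool.Agent.Lib.MP_6e81d8_ag.H39.Roe
import Pool.Agent.Lib.MP_6e81d8_ag.H39.Defs2

/-!
Folding of strips along a cubic, and the induction over fillings.
-/

set_option autoImplicit false

namespace Pool.Agent.Lib.MP_6e81d8_ag.H39

open Polynomial Finset H88 H87
open scoped Polynomial.Bivariate

variable {ι : Type} [DecidableEq ι]

/-- A strip which may be empty. -/
def St (m : ι → ℕ) (M w h : ℝ) (S : Finset ι) : Prop :=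
  S = ∅ ∧ M = 0 ∨ 0 < w ∧ Gd m M w h S

omit [DecidableEq ι] in
lemma strip' {m : ι → ℕ} {S : Finset ι} {M w h : ℝ} (hh : 0 < h) (hw : 0 ≤ w)
    (hS : St m M w h S) {V : Submodule ℂ ℂ[X][Y]} (hV : FiniteDimensional ℂ V) (θ : ℕ → ℝ)
    (H : ∀ f ∈ V, ZV (fun i j => (i : ℝ) < θ j + max 0 ((M - w * j) / h)) 0 0 f → f = 0) :
    ∃ W, Good m W S ∧ ∀ f ∈ V, ZV (fun i j => (i : ℝ) < θ j) 0 0 f → f ∈ W → f = 0 := by
  rcases hS with ⟨rfl, rfl⟩ | hS
  · refine ⟨⊤, fun V _ H => ⟨fun _ => 1, fun _ => 0, fun _ => one_ne_zero,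
      fun f hf _ => H f hf trivial⟩, fun f hf hz _ => H f hf fun i j hij => hz i j ?_⟩
    have c : max 0 ((0 - w * j) / h) = 0 := max_eq_left (div_nonpos_of_nonpos_of_nonneg (by
      linarith [mul_nonneg hw (Nat.cast_nonneg (α := ℝ) j)]) hh.le)
    simpa only [c, add_zero] using hij
  · obtain ⟨u, hu, H'⟩ := collide_h (V := V) (Z₁ := fun i j => (i : ℝ) < θ j)
      (bdd_tri hS.1 hh M) (fun i j hij => by
        obtain ⟨e₁, e₂, c1, c2, c3⟩ := split_lt hij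
        refine ⟨e₁, e₂, c1, c2, fun k hk => ?_⟩
        have c4 := (lt_max_iff.mp (c3 k hk)).resolve_left (not_lt.mpr (Nat.cast_nonneg k))
        have := (lt_div_iff₀ hh).mp c4
        linarith) H
    exact ⟨_, hS.2 (0 + u) 0 hu, H'⟩

theorem model' {m : ι → ℕ} {S₁ S₂ S₃ : Finset ι} {M₁ M₂ M₃ β β' η γ s : ℝ}
    (h1 : St m M₁ β 1 S₁) (h2 : St m M₂ β' η S₂) (h3 : Gd m M₃ γ s S₃) (hd : Disjoint S₁ S₂)
    (hd' : Disjoint (S₁ ∪ S₂) S₃) (hβ : 0 ≤ β) (hβ' : 0 ≤ β') (hη : 0 < η) {D : ℕ → ℕ → Prop}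
    (hb : Bdd D) {θ : ℕ → ℝ} (hθ : ∀ i j, D i j → θ j ≤ i) {k p : ℕ} (hk : 0 < k)
    (key : ∀ f : ℂ[X][Y], Sup (fun i j => D i j ∧ θ j + (M₁ - β * j) ≤ i ∧
        η * (θ j + (M₁ - β * j)) + (M₂ - β' * j) ≤ η * i) f →
      ZV (fun i j => s * i + γ * j < M₃) 1 1 (tau k p f) → f = 0) :
    ∃ a b : ι → ℂ, (∀ i, a i ≠ 0) ∧ Emp D (mS (S₁ ∪ S₂ ∪ S₃) m) a b := by
  have g3 := good_tau (h3 1 1 one_ne_zero) hk p
  set W₃ := (zvS (fun i j => s * i + γ * j < M₃) 1 1).comap (tau k p)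
  have hV := supS_finite hb
  obtain ⟨W₂, g2, H2⟩ := strip' hη hβ' h2 (V := supS D ⊓ W₃)
    (Submodule.finiteDimensional_of_le inf_le_left)
    (fun j => θ j + max 0 ((M₁ - β * j) / 1)) fun f hf hz => by
      refine key f (fun i j hij => ⟨hf.1 i j hij, ?_⟩) hf.2
      have c1 := not_lt.mp (mt (hz i j) (by rwa [sh_zero]))
      have c2 := le_max_right 0 ((M₁ - β * j) / 1)
      have c3 := le_max_left 0 ((M₂ - β' * j) / η)
      have c4 := (div_le_iff₀ hη).mp (le_max_right 0 ((M₂ - β' * j) / η))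
      rw [div_one] at c1 c2
      have c5 := mul_le_mul_of_nonneg_left c1 hη.le
      have c6 := mul_le_mul_of_nonneg_left c2 hη.le
      constructor <;> linarith
  obtain ⟨W₁, g1, H1⟩ := strip' one_pos hβ h1 (V := supS D ⊓ W₃ ⊓ W₂)
    (Submodule.finiteDimensional_of_le (inf_le_left.trans inf_le_left)) θ
    fun f hf hz => H2 f hf.1 hz hf.2
  obtain ⟨a, b, g4, g5⟩ := glue (glue g1 g2 hd) g3 hd' _ hV fun f hf hw =>
    H1 f ⟨⟨hf, hw.2⟩, hw.1.2⟩ (fun i j hij => by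
      rw [sh_zero]
      by_contra c
      linarith [hθ i j (hf i j c)]) hw.1.1
  exact ⟨a, b, g4, fun f hf hv => g5 f hf (van_mS.mp hv)⟩

/-- Emptiness on sheared triangles of monomials with base `B`. -/
def Cone (m : ι → ℕ) (M B : ℝ) (S : Finset ι) : Prop :=
  ∃ σ : ℝ, 9 ≤ σ ∧ ∀ L ρ : ℝ, ρ < M → ∀ D : ℕ → ℕ → Prop, Bdd D →
    (∀ i j, D i j → L - (σ - B) * j ≤ i ∧ (i : ℝ) ≤ L + ρ - σ * j) →
    ∃ a b : ι → ℂ, (∀ i, a i ≠ 0) ∧ Emp D (mS S m) a b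

theorem cone {m : ι → ℕ} {S₁ S₂ S₃ : Finset ι} {M₁ M₂ M₃ β β' η γ s B : ℝ} {q : ℕ}
    (h1 : St m M₁ β 1 S₁) (h2 : St m M₂ β' η S₂) (h3 : Gd m M₃ γ s S₃) (hd : Disjoint S₁ S₂)
    (hd' : Disjoint (S₁ ∪ S₂) S₃) (hβ : 0 ≤ β) (hβ' : 0 ≤ β') (hγ : 0 < γ) (hs : 0 < s)
    (hη0 : 0 < η) (hη : η ≤ 1) (hq : q * s = 1 ∨ q * s = η) (hw : β + β' ≤ B)
    (h9 : β + β' * η + γ * s ≤ B) : Cone m (M₁ + M₂ + M₃) B (S₁ ∪ S₂ ∪ S₃) := by
  have hq0 : 0 < q := Nat.pos_of_ne_zero fun c => by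
    rw [c, Nat.cast_zero, zero_mul] at hq
    rcases hq with c | c <;> linarith
  have hqR : (0 : ℝ) < q := by exact_mod_cast hq0
  obtain ⟨τ, hτ⟩ : ∃ τ : ℝ, η * τ = 1 - η := ⟨(1 - η) / η, mul_div_cancel₀ _ hη0.ne'⟩
  have hτ0 : 0 ≤ τ := le_of_mul_le_mul_left (by linarith) hη0
  have hc : 0 ≤ (B - β) * τ := mul_nonneg (by linarith) hτ0
  obtain ⟨k, hk⟩ := exists_nat_gt (9 + (B - β) * τ)
  obtain ⟨κ, hκ⟩ : ∃ κ : ℝ, q * κ = (q * k + 1 : ℕ) := ⟨_, mul_div_cancel₀ _ hqR.ne'⟩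
  have hκk : (k : ℝ) ≤ κ := le_of_mul_le_mul_left (by rw [hκ]; push_cast; linarith) hqR
  have main : ∀ σ : ℝ, 9 ≤ σ → (∀ (L ρ : ℝ) (f : ℂ[X][Y]), ρ < M₁ + M₂ + M₃ →
      Sup (fun i j => (i : ℝ) ≤ L + ρ - σ * j ∧ L - (σ - B) * j + (M₁ - β * j) ≤ i ∧
        η * (L - (σ - B) * j + (M₁ - β * j)) + (M₂ - β' * j) ≤ η * i) f →
      ZV (fun i j => s * i + γ * j < M₃) 1 1 (tau q (q * k + 1) f) → f = 0) →
      Cone m (M₁ + M₂ + M₃) B (S₁ ∪ S₂ ∪ S₃) := fun σ hσ H =>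
    ⟨σ, hσ, fun L ρ hρ D hb hD => model' h1 h2 h3 hd hd' hβ hβ' hη0 hb
      (θ := fun j => L - (σ - B) * j) (fun i j hij => (hD i j hij).1) hq0
      fun f hf => H L ρ f hρ fun i j hij => ⟨(hD i j (hf i j hij).1).2, (hf i j hij).2⟩⟩
  have hmod : ∀ i₁ i₂ a b : ℕ, q * i₁ + (q * k + 1) * a = q * i₂ + (q * k + 1) * b →
      a % q = b % q := by
    intro i₁ i₂ a b c
    have c1 : q * (i₁ + k * a) + a = q * (i₂ + k * b) + b := by linarith
    rw [← Nat.mul_add_mod q (i₁ + k * a), c1, Nat.mul_add_mod]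
  have hcast : ∀ n i j : ℕ, n = q * i + (q * k + 1) * j → s * n = q * s * (i + κ * j) := by
    intro n i j c
    have c1 : (n : ℝ) = q * i + q * κ * j := by
      rw [hκ]
      exact_mod_cast c
    rw [c1]
    ring
  rcases hq with hq | hq
  · refine main (κ + (B - β - β')) (by linarith) fun L ρ f c1 c2 c3 => tau_eq_zero hq0 _
      (column_abs (k := q) (lo := L + M₁ + M₂) (hi := L + ρ) (l := β' * (1 - η) * q)
        (r := (B - β - β') * q) hs hγ.le ?_ (by linarith) ?_ ?_ (sup_tau hq0 _ c2) c3)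
    · have := mul_le_mul_of_nonneg_left h9 hqR.le
      have c4 : q * (γ * s) = γ := by rw [mul_left_comm, hq, mul_one]
      linarith
    · rintro n a b ⟨i₁, e1, -⟩ ⟨i₂, e2, -⟩
      exact hmod _ _ _ _ (e1.symm.trans e2)
    · rintro x n a b ⟨i₁, e1, -, -, a3⟩ ⟨i₂, e2, b1, b2, -⟩ hab
      have c4 := hcast _ _ _ e1
      have c5 := hcast _ _ _ e2
      rw [hq, one_mul] at c4 c5
      have c6 : (a : ℝ) + q * x ≤ b := by exact_mod_cast hab
      have c7 : (0 : ℝ) ≤ a := Nat.cast_nonneg a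
      have c8 := mul_le_mul_of_nonneg_left b2 (sub_nonneg.mpr hη)
      have c9 := mul_le_mul_of_nonneg_left c6 (mul_nonneg hβ' (sub_nonneg.mpr hη))
      have c10 := mul_le_mul_of_nonneg_left (show (q : ℝ) * x ≤ b by linarith)
        (show 0 ≤ B - β - β' by linarith)
      have c11 := congrArg (η * ·) (c4.symm.trans c5)
      constructor <;> linarith
  · refine main (κ - (B - β) * τ) (by linarith) fun L ρ f c1 c2 c3 => tau_eq_zero hq0 _
      (column_abs (k := q) (lo := η * (L + M₁) + M₂) (hi := L + ρ - (1 - η) * (L + M₁))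
        (l := (B - β - β') * q) (r := (B - β) * τ * q) hs hγ.le ?_ (by linarith) ?_ ?_
        (sup_tau hq0 _ c2) c3)
    · refine le_of_mul_le_mul_left ?_ hη0
      have := mul_le_mul_of_nonneg_left h9 hqR.le
      have c4 : q * (γ * s) = η * γ := by rw [mul_left_comm, hq, mul_comm]
      have c5 := congrArg (((B - β) * q) * ·) hτ
      linarith
    · rintro n a b ⟨i₁, e1, -⟩ ⟨i₂, e2, -⟩
      exact hmod _ _ _ _ (e1.symm.trans e2)
    · rintro x n a b ⟨i₁, e1, a1, -, -⟩ ⟨i₂, e2, -, b2, b3⟩ hab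
      have c4 := hcast _ _ _ e1
      have c5 := hcast _ _ _ e2
      rw [hq] at c4 c5
      have c6 : (a : ℝ) + q * x ≤ b := by exact_mod_cast hab
      have c7 : (0 : ℝ) ≤ a := Nat.cast_nonneg a
      have c8 := mul_le_mul_of_nonneg_left b2 (sub_nonneg.mpr hη)
      have c9 := mul_le_mul_of_nonneg_left c6 hc
      have c10 := mul_le_mul_of_nonneg_left (show (q : ℝ) * x ≤ b by linarith)
        (show 0 ≤ B - β - β' by linarith)
      have c11 := mul_left_cancel₀ hη0.ne' (c4.symm.trans c5)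
      have c12 := congrArg (((B - β) * b) * ·) hτ
      constructor <;> linarith

theorem Cone.ell [Fintype ι] {m : ι → ℕ} {M W : ℝ} {S : Finset ι} (H : Cone m M (3 * W) S)
    (hW : 3 ≤ W) : Ell m M W 3 S := by
  intro R hR
  obtain ⟨σ, hσ, H⟩ := H
  obtain ⟨d, hd⟩ : ∃ d : ℕ, R < 3 * (d + 1) := by
    obtain ⟨d, hd⟩ := exists_nat_gt R
    exact ⟨d, by linarith [Nat.cast_nonneg (α := ℝ) d]⟩
  have hd0 : (0 : ℝ) ≤ d := Nat.cast_nonneg d
  obtain ⟨l, l1, l2⟩ : ∃ l : ℤ, 9 * (l : ℝ) ≤ σ ∧ σ < 9 * l + 9 :=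
    ⟨⌊σ / 9⌋, by linarith [Int.floor_le (σ / 9)], by linarith [Int.lt_floor_add_one (σ / 9)]⟩
  have l3 : 0 < l := by exact_mod_cast (by linarith : (0 : ℝ) < l)
  have l4 : (1 : ℝ) ≤ l := by exact_mod_cast l3
  obtain ⟨x, hx⟩ : ∃ x : ℝ, W * x = σ - 9 * l := ⟨_, mul_div_cancel₀ _ (by linarith)⟩
  have x1 : 0 ≤ x := le_of_mul_le_mul_left (a := W) (by linarith) (by linarith)
  have x2 : x < 3 := lt_of_mul_lt_mul_left (a := W) (by linarith) (by linarith)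
  obtain ⟨ε, e1, e2, e3⟩ : ∃ ε : ℝ, 0 < ε ∧ x + 2 * ε < 3 ∧ R + 2 * ε * d < M := by
    have c1 : 0 < (M - R) / (2 * d + 1) := div_pos (by linarith) (by linarith)
    have c2 : (M - R) / (2 * d + 1) * (2 * d + 1) = M - R := div_mul_cancel₀ _ (by linarith)
    have c3 := mul_le_mul_of_nonneg_right (min_le_right ((3 - x) / 3) ((M - R) / (2 * d + 1))) hd0
    exact ⟨min ((3 - x) / 3) ((M - R) / (2 * d + 1)), lt_min (by linarith) c1,
      by linarith [min_le_left ((3 - x) / 3) ((M - R) / (2 * d + 1))], by linarith⟩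
  obtain ⟨P, p1, p2⟩ := exists_par (r := 3 * l + x + ε) e1
  have hb : (0 : ℝ) < 2 * P.b := by exact_mod_cast (by linarith [P.hb] : 0 < 2 * P.b)
  have hg : (P.g : ℝ) = P.g / (2 * P.b) * (2 * P.b) := (div_mul_cancel₀ _ hb.ne').symm
  generalize (P.g : ℝ) / (2 * P.b) = ν at p1 p2 hg
  have h6 : (2 * P.b : ℝ) ≤ P.g := by nlinarith
  have h7 : (2 * P.b * (3 * l) : ℝ) < P.g + 2 * (2 * P.b) := by nlinarith
  have h8 : (P.g - 2 * P.b : ℝ) < 2 * P.b * (3 * l) := by nlinarith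
  have hD : ∀ i j, Wn P (3 * l) 3 W R d i j → (j ≤ d ∧ d * (3 * l) - R * (3 - x) / 3 -
      (σ - 3 * W) * j ≤ i) ∧ (i : ℝ) ≤ d * (3 * l) - R * (3 - x) / 3 + (R + 2 * ε * d) - σ * j := by
    rintro i j ⟨e, c, w1, w2, w3, w4⟩
    have w5 : (e : ℝ) * (P.g - 2 * P.b) ≤ 2 * P.b * (i - c * (3 * l)) := by exact_mod_cast w3
    have w6 : 2 * P.b * (i - c * (3 * l) : ℝ) ≤ e * (P.g + 2 * (2 * P.b)) := by exact_mod_cast w4
    have w7 : (e : ℝ) + c + 3 * j = d := by exact_mod_cast w1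
    rw [hg] at w5 w6
    have w8 : e * (ν - 1) ≤ i - c * (3 * l) := le_of_mul_le_mul_left (by linarith) hb
    have w9 : i - c * (3 * l) ≤ e * (ν + 2) := le_of_mul_le_mul_left (by linarith) hb
    have w10 : (0 : ℝ) ≤ e := Nat.cast_nonneg e
    have w11 := mul_le_mul_of_nonneg_left p1 w10
    have w12 := mul_le_mul_of_nonneg_left p2 w10
    have w13 := mul_le_mul_of_nonneg_right w2 x1
    have w14 := mul_le_mul_of_nonneg_right w2 (by linarith : 0 ≤ 3 - x)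
    have w15 := mul_le_mul_of_nonneg_left (show (e : ℝ) ≤ d by
      linarith [Nat.cast_nonneg (α := ℝ) c, Nat.cast_nonneg (α := ℝ) j]) e1.le
    have w16 := mul_nonneg w10 e1.le
    have w17 := congrArg (· * (l : ℝ)) w7
    have w18 := congrArg (· * (j : ℝ)) hx
    exact ⟨⟨by omega, by linarith⟩, by linarith⟩
  obtain ⟨N, hN⟩ := exists_nat_gt (d * (3 * l) - R * (3 - x) / 3 + (R + 2 * ε * d))
  obtain ⟨a, b, c1, c2⟩ := H _ _ e3 (Wn P (3 * l) 3 W R d) ⟨N + d + 1, fun i j hij => by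
    obtain ⟨⟨c1, -⟩, c2⟩ := hD i j hij
    have c3 : (i : ℝ) < N := by
      linarith [mul_nonneg (by linarith : 0 ≤ σ) (Nat.cast_nonneg (α := ℝ) j)]
    have c4 : i < N := by exact_mod_cast c3
    omega⟩ fun i j hij => ⟨(hD i j hij).1.2, (hD i j hij).2⟩
  obtain ⟨F, hF, H'⟩ := tate_generic_w P (by exact_mod_cast h6) (by linarith)
    (lead_th P (dvd_mul_right 3 l) (by exact_mod_cast h7) (by exact_mod_cast h8))
    (by norm_num) hW hd c1 c2
  obtain ⟨p, hp⟩ := point_of_generic hF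
  exact ⟨_, _, H' p hp⟩

theorem Fills.gd [Fintype ι] {t : ι → ℝ} (m : ι → ℕ) {w h : ℝ} {S : Finset ι}
    (H : Fills t w h S) : 0 < w ∧ 0 < h ∧ Gd m (∑ k ∈ S, t k * m k) w h S := by
  induction H with
  | square k hk => exact ⟨hk, hk, packs_good m (Packs.square k hk)⟩
  | @beside w₁ w₂ h S₁ S₂ _ _ hd h1 h2 =>
    refine ⟨add_pos h1.1 h2.1, h1.2.1, fun a b ha V hV H => ?_⟩
    have hh := h2.2.1
    obtain ⟨u, hu, H'⟩ := collide_h (V := V)
      (Z₁ := fun i j => h * i + w₁ * j < ∑ k ∈ S₁, t k * m k)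
      (bdd_tri h2.1 hh (∑ k ∈ S₂, t k * m k)) (fun i j hij => by
        rw [sum_union hd] at hij
        obtain ⟨e₁, e₂, c1, c2, c3⟩ := split_lt (i := i)
          (θ₁ := (∑ k ∈ S₁, t k * m k - w₁ * j) / h) (θ₂ := (∑ k ∈ S₂, t k * m k - w₂ * j) / h) (by
            rw [← add_div, lt_div_iff₀ hh]
            linarith)
        refine ⟨e₁, e₂, c1, fun k hk => ?_, fun k hk => ?_⟩
        · have := (lt_div_iff₀ hh).mp (c2 k hk)
          linarith
        · have := (lt_div_iff₀ hh).mp (c3 k hk)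
          linarith) H
    exact glue (h1.2.2 a b ha) (h2.2.2 (a + u) b hu) hd V hV fun f hf hw => H' f hf hw.1 hw.2
  | swap _ ih =>
    refine ⟨ih.2.1, ih.1, Ell.gd (fun R hR => ?_) ih.2.1 ih.1⟩
    obtain ⟨a, b, c⟩ := ih.2.2.ell ih.1 ih.2.1 R hR
    exact ⟨b, a, (emp_swap c).mono fun i j hij => by linarith⟩
  | @enlarge w h w' h' S _ c1 c2 ih =>
    refine ⟨ih.1.trans_le c1, ih.2.1.trans_le c2, fun a b ha V hV H =>
      ih.2.2 a b ha V hV fun f hf hw => H f hf fun i j hij => hw i j ?_⟩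
    have := mul_le_mul_of_nonneg_right c1 (Nat.cast_nonneg (α := ℝ) j)
    have := mul_le_mul_of_nonneg_right c2 (Nat.cast_nonneg (α := ℝ) i)
    linarith
  | @fold a b c u v s w A B C q _ _ _ d1 d2 ha hb hv hu hq hw h1 h2 iA iB iC =>
    have u0 : 0 < u := hv.trans_le hu
    have u1 : 0 < u⁻¹ := inv_pos.mpr u0
    have u2 : u⁻¹ * u = 1 := inv_mul_cancel₀ u0.ne'
    have st : ∀ {S : Finset ι} {w h h' : ℝ}, h' = u⁻¹ * h →
        (S.Nonempty → 0 < w ∧ 0 < h ∧ Gd m (∑ k ∈ S, t k * m k) w h S) →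
        St m (u⁻¹ * ∑ k ∈ S, t k * m k) (u⁻¹ * w) h' S := by
      intro S w h h' c1 c2
      rcases S.eq_empty_or_nonempty with c | c
      · exact Or.inl ⟨c, by rw [c, sum_empty, mul_zero]⟩
      · exact Or.inr ⟨mul_pos u1 (c2 c).1, (c2 c).2.2.scale u1 rfl rfl c1⟩
    have c1 := mul_le_mul_of_nonneg_left hw u1.le
    have c2 := mul_le_mul_of_nonneg_left h1 u1.le
    have c3 := mul_le_mul_of_nonneg_left (mul_le_mul_of_nonneg_left h2 u1.le) u1.le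
    have c4 := congrArg (u⁻¹ * a * ·) u2
    have c5 := congrArg (u⁻¹ * w * ·) u2
    have c6 := (cone (B := 3 * (u⁻¹ * w)) (q := q) (st u2.symm iA) (st rfl iB)
      (iC.2.2.scale u1 rfl rfl rfl) d1 d2 (mul_nonneg u1.le ha) (mul_nonneg u1.le hb)
      (mul_pos u1 iC.1) (mul_pos u1 iC.2.1) (mul_pos u1 hv)
      (u2 ▸ mul_le_mul_of_nonneg_left hu u1.le)
      (hq.imp (fun c => by rw [mul_left_comm, c, u2]) fun c => by rw [mul_left_comm, c])
      (by linarith) (by linarith)).ell (by linarith)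
    refine ⟨by linarith, by linarith, (c6.gd (by linarith) (by norm_num)).scale u0 ?_ ?_ ?_⟩
    · rw [sum_union d2, sum_union d1, ← mul_add, ← mul_add, mul_inv_cancel_left₀ u0.ne']
    · rw [mul_inv_cancel_left₀ u0.ne']
    · rw [mul_comm]

theorem fills_empty {r d : ℕ} {t : Fin r → ℝ} {m : Fin r → ℕ} {e : ℝ} (H : Fills t e e univ)
    (h : e * d < ∑ i, t i * m i) :
    ∃ F : MvPolynomial (Fin r × Fin 2) ℂ, F ≠ 0 ∧ ∀ p : Fin r → Fin 2 → ℂ,
      MvPolynomial.eval (fun ij : Fin r × Fin 2 => p ij.1 ij.2) F ≠ 0 →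
      MvPolynomial.restrictTotalDegree (Fin 2) ℂ d ⊓
        ⨅ i : Fin r, ((RingHom.ker (MvPolynomial.eval (p i))) ^ (m i)).restrictScalars ℂ = ⊥ := by
  obtain ⟨he, -, h1⟩ := H.gd m
  obtain ⟨a, b, h2⟩ := h1.ell he he _ h
  obtain ⟨F, hF, H'⟩ := generic_of_point (bdd_wd he he _) h2
  refine ⟨F, hF, fun p hp => eq_bot_iff.mpr fun f hf => ?_⟩
  have h7 := hf.2
  simp only [Submodule.coe_iInf, Set.mem_iInter, SetLike.mem_coe] at h7
  refine (map_eq_zero_iff _ (Bivariate.equivMvPolynomial ℂ).symm.injective).mp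
    (H' p hp _ (fun i k c => ?_) (van_mS.mpr fun i _ => van_symm (h7 i)))
  have h3 : i + k ≤ d := sup_symm ((MvPolynomial.mem_restrictTotalDegree _ _ _).mp hf.1) i k c
  have h4 : (i : ℝ) + k ≤ d := by exact_mod_cast h3
  linarith [mul_le_mul_of_nonneg_left h4 he.le]

end Pool.Agent.Lib.MP_6e81d8_ag.H39
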