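import Pool.Agent.Lib.MP_6e81d8_ag.H39.Tile
import Pool.Agent.Lib.MP_6e81d8_ag.H39.Col
import Pool.Agent.Lib.MP_6e81d8_ag.H87.Main

/-!
Packings of squares into three strips give nef classes on general blow-ups of the plane.
-/

set_option autoImplicit false

namespace Pool.Agent.Lib.MP_6e81d8_ag.H39

open Polynomial Finset H88 H87
open scoped Polynomial.Bivariate

variable {ι : Type} [DecidableEq ι]

omit [DecidableEq ι] in
lemma good_tau {m : ι → ℕ} {W : Submodule ℂ ℂ[X][Y]} {S : Finset ι} (h : Good m W S) {k : ℕ}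
    (hk : 0 < k) (p : ℕ) : Good m (W.comap (tau k p)) S := by
  intro V hV H
  obtain ⟨a, b, h1, h2⟩ := h (V.map (tau k p)) inferInstance (by
    rintro _ ⟨f, hf, rfl⟩ hw
    rw [H f hf hw, map_zero])
  exact ⟨fun i => a i ^ k, fun i => a i ^ p * b i, fun i => pow_ne_zero _ (h1 i),
    fun f hf hv => tau_eq_zero hk p (h2 _ ⟨f, hf, rfl⟩ fun i hi => van_tau k p (hv i hi))⟩

/-- A strip placed on the axis pushes the left edge of the region to the right. -/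
lemma strip {t : ι → ℝ} (m : ι → ℕ) {S : Finset ι} {w h : ℝ} (hh : 0 < h)
    (hS : S = ∅ ∧ w = 0 ∨ Packs t w h S) {V : Submodule ℂ ℂ[X][Y]} (hV : FiniteDimensional ℂ V)
    (θ : ℕ → ℝ)
    (H : ∀ f ∈ V, ZV (fun i j => (i : ℝ) < θ j + max 0 ((∑ k ∈ S, t k * m k - w * j) / h)) 0 0 f →
      f = 0) :
    ∃ W, Good m W S ∧ ∀ f ∈ V, ZV (fun i j => (i : ℝ) < θ j) 0 0 f → f ∈ W → f = 0 := by
  rcases hS with ⟨rfl, rfl⟩ | hS
  · exact ⟨⊤, fun V _ H => ⟨fun _ => 1, fun _ => 0, fun _ => one_ne_zero,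
      fun f hf _ => H f hf trivial⟩, fun f hf hz _ => H f hf (by simpa using hz)⟩
  · obtain ⟨u, hu, H'⟩ := collide_h (V := V) (Z₁ := fun i j => (i : ℝ) < θ j)
      (bdd_tri hS.pos.1 hh (∑ k ∈ S, t k * m k)) (fun i j hij => by
        obtain ⟨e₁, e₂, c1, c2, c3⟩ := split_lt hij
        refine ⟨e₁, e₂, c1, c2, fun k hk => ?_⟩
        have c4 := (lt_max_iff.mp (c3 k hk)).resolve_left (not_lt.mpr (Nat.cast_nonneg k))
        have := (lt_div_iff₀ hh).mp c4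
        linarith) H
    exact ⟨_, packs_good m hS (0 + u) 0 hu, H'⟩

theorem model [Fintype ι] {t : ι → ℝ} {m : ι → ℕ} {S₁ S₂ : Finset ι} {β β' η γ s : ℝ}
    (h1 : S₁ = ∅ ∧ β = 0 ∨ Packs t β 1 S₁) (h2 : S₂ = ∅ ∧ β' = 0 ∨ Packs t β' η S₂)
    (h3 : Packs t γ s (S₁ ∪ S₂)ᶜ) (hd : Disjoint S₁ S₂) (hη : 0 < η) {D : ℕ → ℕ → Prop}
    (hb : Bdd D) {θ : ℕ → ℝ} (hθ : ∀ i j, D i j → θ j ≤ i) {k p : ℕ} (hk : 0 < k)
    (key : ∀ f : ℂ[X][Y], Sup (fun i j => D i j ∧ θ j + (∑ k ∈ S₁, t k * m k - β * j) ≤ i ∧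
        η * (θ j + (∑ k ∈ S₁, t k * m k - β * j)) + (∑ k ∈ S₂, t k * m k - β' * j) ≤ η * i) f →
      ZV (fun i j => s * i + γ * j < ∑ k ∈ (S₁ ∪ S₂)ᶜ, t k * m k) 1 1 (tau k p f) → f = 0) :
    ∃ a b : ι → ℂ, (∀ i, a i ≠ 0) ∧ Emp D m a b := by
  have g3 := good_tau (packs_good m h3 1 1 one_ne_zero) hk p
  set W₃ := (zvS (fun i j => s * i + γ * j < ∑ k ∈ (S₁ ∪ S₂)ᶜ, t k * m k) 1 1).comap (tau k p)
  have hV := supS_finite hb
  obtain ⟨W₂, g2, H2⟩ := strip m hη h2 (V := supS D ⊓ W₃)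
    (Submodule.finiteDimensional_of_le inf_le_left)
    (fun j => θ j + max 0 ((∑ k ∈ S₁, t k * m k - β * j) / 1)) fun f hf hz => by
      refine key f (fun i j hij => ⟨hf.1 i j hij, ?_⟩) hf.2
      have c1 := not_lt.mp (mt (hz i j) (by rwa [sh_zero]))
      have c2 := le_max_right 0 ((∑ k ∈ S₁, t k * m k - β * j) / 1)
      have c3 := le_max_left 0 ((∑ k ∈ S₂, t k * m k - β' * j) / η)
      have c4 := (div_le_iff₀ hη).mp (le_max_right 0 ((∑ k ∈ S₂, t k * m k - β' * j) / η))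
      rw [div_one] at c1 c2
      have c5 := mul_le_mul_of_nonneg_left c1 hη.le
      have c6 := mul_le_mul_of_nonneg_left c2 hη.le
      constructor <;> linarith
  obtain ⟨W₁, g1, H1⟩ := strip m one_pos h1 (V := supS D ⊓ W₃ ⊓ W₂)
    (Submodule.finiteDimensional_of_le (inf_le_left.trans inf_le_left)) θ
    fun f hf hz => H2 f hf.1 hz hf.2
  obtain ⟨a, b, g4, g5⟩ := glue (glue g1 g2 hd) g3 disjoint_compl_right _ hV fun f hf hw =>
    H1 f ⟨⟨hf, hw.2⟩, hw.1.2⟩ (fun i j hij => by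
      rw [sh_zero]
      by_contra c
      linarith [hθ i j (hf i j c)]) hw.1.1
  exact ⟨a, b, g4, fun f hf hv => g5 f hf fun i _ => hv i⟩

theorem three_strips {r d q : ℕ} {t : Fin r → ℝ} {m : Fin r → ℕ} {S₁ S₂ : Finset (Fin r)}
    {β β' η γ s : ℝ} (h1 : S₁ = ∅ ∧ β = 0 ∨ Packs t β 1 S₁)
    (h2 : S₂ = ∅ ∧ β' = 0 ∨ Packs t β' η S₂) (h3 : Packs t γ s (S₁ ∪ S₂)ᶜ) (hd : Disjoint S₁ S₂)
    (hη0 : 0 < η) (hη : η ≤ 1) (hq : q * s = 1 ∨ q * s = η) (hw : β + β' ≤ 9)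
    (h9 : β + β' * η + γ * s ≤ 9) (h : 3 * (d : ℝ) < ∑ i, t i * m i) :
    ∃ F : MvPolynomial (Fin r × Fin 2) ℂ, F ≠ 0 ∧ ∀ p : Fin r → Fin 2 → ℂ,
      MvPolynomial.eval (fun ij : Fin r × Fin 2 => p ij.1 ij.2) F ≠ 0 →
      MvPolynomial.restrictTotalDegree (Fin 2) ℂ d ⊓
        ⨅ i : Fin r, ((RingHom.ker (MvPolynomial.eval (p i))) ^ (m i)).restrictScalars ℂ = ⊥ := by
  obtain ⟨hγ, hs, -⟩ := h3.pos
  have hβ' : 0 ≤ β' := h2.elim (fun c => c.2.ge) fun c => c.pos.1.le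
  have hq0 : 0 < q := Nat.pos_of_ne_zero fun c => by
    rw [c, Nat.cast_zero, zero_mul] at hq
    rcases hq with c | c <;> linarith
  have hqR : (0 : ℝ) < q := by exact_mod_cast hq0
  have hd0 : (0 : ℝ) ≤ d := Nat.cast_nonneg d
  rw [← sum_add_sum_compl (S₁ ∪ S₂), sum_union hd] at h
  obtain ⟨τ, hτ⟩ : ∃ τ : ℝ, η * τ = 1 - η := ⟨(1 - η) / η, mul_div_cancel₀ _ hη0.ne'⟩
  have hτ0 : 0 ≤ τ := le_of_mul_le_mul_left (by linarith) hη0
  have hc : 0 ≤ (9 - β) * τ := mul_nonneg (by linarith) hτ0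
  obtain ⟨k, hk⟩ := exists_nat_gt (9 + (9 - β) * τ)
  obtain ⟨κ, hκ⟩ : ∃ κ : ℝ, q * κ = (q * k + 1 : ℕ) := ⟨_, mul_div_cancel₀ _ hqR.ne'⟩
  have hκk : (k : ℝ) ≤ κ := le_of_mul_le_mul_left (by rw [hκ]; push_cast; linarith) hqR
  have main : ∀ ν : ℝ, 3 ≤ ν → (∀ (E : ℝ) (f : ℂ[X][Y]), 3 * d + E < ∑ i ∈ S₁, t i * m i +
      ∑ i ∈ S₂, t i * m i + ∑ i ∈ (S₁ ∪ S₂)ᶜ, t i * m i →
      Sup (fun i j => (i : ℝ) ≤ ν * (d - 3 * j) + E ∧
        (ν - 3) * (d - 3 * j) + (∑ k ∈ S₁, t k * m k - β * j) ≤ i ∧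
        η * ((ν - 3) * (d - 3 * j) + (∑ k ∈ S₁, t k * m k - β * j)) +
          (∑ k ∈ S₂, t k * m k - β' * j) ≤ η * i) f →
      ZV (fun i j => s * i + γ * j < ∑ k ∈ (S₁ ∪ S₂)ᶜ, t k * m k) 1 1 (tau q (q * k + 1) f) →
      f = 0) → ∃ P : Par, 2 * P.b ≤ P.g ∧ ∃ a b : Fin r → ℂ, (∀ i, a i ≠ 0) ∧
        Emp (Win P d) m a b := by
    intro ν hν H
    set M := ∑ i ∈ S₁, t i * m i + ∑ i ∈ S₂, t i * m i + ∑ i ∈ (S₁ ∪ S₂)ᶜ, t i * m i with hM
    have hε0 : 0 < (M - 3 * d) / (d + 1) := div_pos (by linarith) (by linarith)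
    have hε1 : (M - 3 * d) / (d + 1) * (d + 1) = M - 3 * d := div_mul_cancel₀ _ (by linarith)
    generalize (M - 3 * d) / (d + 1) = ε at hε0 hε1
    obtain ⟨P, p1, p2⟩ := exists_par (r := ν) hε0
    have hb : (0 : ℝ) < 2 * P.b := by exact_mod_cast (by linarith [P.hb] : 0 < 2 * P.b)
    have hg : (P.g : ℝ) = P.g / (2 * P.b) * (2 * P.b) := (div_mul_cancel₀ _ hb.ne').symm
    generalize (P.g : ℝ) / (2 * P.b) = ν' at p1 p2 hg
    have hD : ∀ i j, Win P d i j → 3 * j ≤ d ∧ (ν - 3) * (d - 3 * j) ≤ i ∧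
        (i : ℝ) ≤ ν * (d - 3 * j) + ε * d := by
      rintro i j ⟨w1, w2, w3⟩
      have w4 : (0 : ℝ) ≤ d - 3 * j := by
        rw [← cast_row w1]
        exact_mod_cast Nat.zero_le _
      have w5 : ((d : ℝ) - 3 * j) * (P.g - 2 * P.b) ≤ 2 * P.b * i := by
        rw [← cast_row w1]
        exact_mod_cast w2
      have w6 : 2 * P.b * (i : ℝ) ≤ ((d : ℝ) - 3 * j) * (P.g + 2 * (2 * P.b)) := by
        rw [← cast_row w1]
        exact_mod_cast w3
      rw [hg] at w5 w6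
      have w7 : (ν' - 1) * (d - 3 * j) ≤ i := le_of_mul_le_mul_left (by linarith) hb
      have w8 : (i : ℝ) ≤ (ν' + 2) * (d - 3 * j) := le_of_mul_le_mul_left (by linarith) hb
      have w9 := mul_le_mul_of_nonneg_right p1 w4
      have w10 := mul_le_mul_of_nonneg_right p2 w4
      have w11 := mul_nonneg hε0.le (Nat.cast_nonneg (α := ℝ) j)
      exact ⟨w1, by linarith, by linarith⟩
    obtain ⟨N, hN⟩ := exists_nat_gt ((ν + ε) * d)
    have h6 : (2 * P.b : ℝ) ≤ P.g := by nlinarith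
    refine ⟨P, by exact_mod_cast h6, model h1 h2 h3 hd hη0 ⟨N + d + 1, fun i j hij => ?_⟩
      (θ := fun j => (ν - 3) * (d - 3 * j)) (fun i j hij => (hD i j hij).2.1) hq0
      fun f hf => H (ε * d) f (by linarith) fun i j hij =>
        ⟨(hD i j (hf i j hij).1).2.2, (hf i j hij).2⟩⟩
    obtain ⟨c1, -, c2⟩ := hD i j hij
    have c3 : (i : ℝ) < N := by
      nlinarith [mul_nonneg (by linarith : 0 ≤ ν) (Nat.cast_nonneg (α := ℝ) j)]
    have c4 : i < N := by exact_mod_cast c3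
    omega
  have hmod : ∀ i₁ i₂ a b : ℕ, q * i₁ + (q * k + 1) * a = q * i₂ + (q * k + 1) * b →
      a % q = b % q := by
    intro i₁ i₂ a b c
    have c1 : q * (i₁ + k * a) + a = q * (i₂ + k * b) + b := by linarith
    rw [← Nat.mul_add_mod q (i₁ + k * a), c1, Nat.mul_add_mod]
  have hcast : ∀ n i j : ℕ, n = q * i + (q * k + 1) * j → s * n = q * s * (i + κ * j) := by
    intro n i j c
    have c1 : (n : ℝ) = q * i + q * κ * j := by
      rw [hκ]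
      exact_mod_cast c
    rw [c1]
    ring
  obtain ⟨P, p1, a, b, p2, p3⟩ : ∃ P : Par, 2 * P.b ≤ P.g ∧ ∃ a b : Fin r → ℂ, (∀ i, a i ≠ 0) ∧
      Emp (Win P d) m a b := by
    rcases hq with hq | hq
    · refine main ((κ + (9 - β - β')) / 3) (by linarith) fun E f c1 c2 c3 => tau_eq_zero hq0 _
        (column_abs (k := q) (lo := ((κ + (9 - β - β')) / 3 - 3) * d + ∑ i ∈ S₁, t i * m i +
          ∑ i ∈ S₂, t i * m i) (hi := (κ + (9 - β - β')) / 3 * d + E) (l := β' * (1 - η) * q)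
          (r := (9 - β - β') * q) hs hγ.le ?_ (by linarith) ?_ ?_ (sup_tau hq0 _ c2) c3)
      · have := mul_le_mul_of_nonneg_left h9 hqR.le
        have c4 : q * (γ * s) = γ := by rw [mul_left_comm, hq, mul_one]
        linarith
      · rintro n a b ⟨i₁, e1, -⟩ ⟨i₂, e2, -⟩
        exact hmod _ _ _ _ (e1.symm.trans e2)
      · rintro x n a b ⟨i₁, e1, -, -, a3⟩ ⟨i₂, e2, b1, b2, -⟩ hab
        have c4 := hcast _ _ _ e1
        have c5 := hcast _ _ _ e2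
        rw [hq, one_mul] at c4 c5
        have c6 : (a : ℝ) + q * x ≤ b := by exact_mod_cast hab
        have c7 : (0 : ℝ) ≤ a := Nat.cast_nonneg a
        have c8 := mul_le_mul_of_nonneg_left b2 (sub_nonneg.mpr hη)
        have c9 := mul_le_mul_of_nonneg_left c6 (mul_nonneg hβ' (sub_nonneg.mpr hη))
        have c10 := mul_le_mul_of_nonneg_left (show (q : ℝ) * x ≤ b by linarith)
          (show 0 ≤ 9 - β - β' by linarith)
        have c11 := congrArg (η * ·) (c4.symm.trans c5)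
        constructor <;> linarith
    · refine main ((κ - (9 - β) * τ) / 3) (by linarith) fun E f c1 c2 c3 => tau_eq_zero hq0 _
        (column_abs (k := q) (lo := η * (((κ - (9 - β) * τ) / 3 - 3) * d + ∑ i ∈ S₁, t i * m i) +
          ∑ i ∈ S₂, t i * m i) (hi := (κ - (9 - β) * τ) / 3 * d + E -
          (1 - η) * (((κ - (9 - β) * τ) / 3 - 3) * d + ∑ i ∈ S₁, t i * m i))
          (l := (9 - β - β') * q) (r := (9 - β) * τ * q) hs hγ.le ?_ (by linarith) ?_ ?_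
          (sup_tau hq0 _ c2) c3)
      · refine le_of_mul_le_mul_left ?_ hη0
        have := mul_le_mul_of_nonneg_left h9 hqR.le
        have c4 : q * (γ * s) = η * γ := by rw [mul_left_comm, hq, mul_comm]
        have c5 := congrArg (((9 - β) * q) * ·) hτ
        linarith
      · rintro n a b ⟨i₁, e1, -⟩ ⟨i₂, e2, -⟩
        exact hmod _ _ _ _ (e1.symm.trans e2)
      · rintro x n a b ⟨i₁, e1, a1, -, -⟩ ⟨i₂, e2, -, b2, b3⟩ hab
        have c4 := hcast _ _ _ e1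
        have c5 := hcast _ _ _ e2
        rw [hq] at c4 c5
        have c6 : (a : ℝ) + q * x ≤ b := by exact_mod_cast hab
        have c7 : (0 : ℝ) ≤ a := Nat.cast_nonneg a
        have c8 := mul_le_mul_of_nonneg_left b2 (sub_nonneg.mpr hη)
        have c9 := mul_le_mul_of_nonneg_left c6 hc
        have c10 := mul_le_mul_of_nonneg_left (show (q : ℝ) * x ≤ b by linarith)
          (show 0 ≤ 9 - β - β' by linarith)
        have c11 := mul_left_cancel₀ hη0.ne' (c4.symm.trans c5)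
        have c12 := congrArg (((9 - β) * b) * ·) hτ
        constructor <;> linarith
  obtain ⟨F, hF, H⟩ := tate_generic P p1 p2 p3
  refine ⟨F, hF, fun p hp => eq_bot_iff.mpr fun f hf => ?_⟩
  have h7 := hf.2
  simp only [Submodule.coe_iInf, Set.mem_iInter, SetLike.mem_coe] at h7
  exact (map_eq_zero_iff _ (Bivariate.equivMvPolynomial ℂ).symm.injective).mp
    (H p hp _ (sup_symm ((MvPolynomial.mem_restrictTotalDegree _ _ _).mp hf.1))
      fun i => van_symm (h7 i))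

end Pool.Agent.Lib.MP_6e81d8_ag.H39
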