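import Pool.Agent.Lib.MP_6e81d8_ag.Final

set_option autoImplicit false

namespace Pool.Agent.Lib.MP_6e81d8_ag.H39.OldCubicBound

theorem result :
  ∀ (r d : ℕ) (m : Fin r → ℕ), 3 ≤ r → Antitone m → (∀ i, 0 < m i) →
    (∀ i j k : Fin r, i ≠ j → i ≠ k → j ≠ k → m i + m j + m k < d) →
    (∀ i j : Fin r, i < j → 14 * m j ^ 3 ≤ d * (d - m i)) →
    ∃ F : MvPolynomial (Fin r × Fin 2) ℂ, F ≠ 0 ∧
      ∀ p : Fin r → Fin 2 → ℂ,
        MvPolynomial.eval (fun ij : Fin r × Fin 2 => p ij.1 ij.2) F ≠ 0 →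
        ((Module.finrank ℂ
            ↥(MvPolynomial.restrictTotalDegree (Fin 2) ℂ d ⊓
              ⨅ i : Fin r,
                ((RingHom.ker (MvPolynomial.eval (p i))) ^ (m i)).restrictScalars ℂ) : ℤ) - 1)
          = max (-1) (((d * (d + 3) / 2 : ℕ) : ℤ)
              - ∑ i : Fin r, ((m i * (m i + 1) / 2 : ℕ) : ℤ)) :=
  fun r d m hr h1 h2 h3 h4 => Pool.Agent.Lib.MP_6e81d8_ag.expected_of_bd m
    (Pool.Agent.Lib.MP_6e81d8_ag.free_first r d m hr h1 h2 h3 (h4 _ _ (by simp [Fin.lt_def])))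

end Pool.Agent.Lib.MP_6e81d8_ag.H39.OldCubicBound
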