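import Pool.Agent.Lib.MP_6e81d8_ag.H39.Main

set_option autoImplicit false

namespace Pool.Agent.Lib.MP_6e81d8_ag.H39.OldThreeStrips

theorem result :
  ∀ (r d q : ℕ) (m : Fin r → ℕ) (t : Fin r → ℝ) (A B : Finset (Fin r)) (a b h c s : ℝ),
    (A = ∅ ∧ a = 0 ∨ Pool.Agent.Lib.MP_6e81d8_ag.H39.Packs t a 1 A) →
    (B = ∅ ∧ b = 0 ∨ Pool.Agent.Lib.MP_6e81d8_ag.H39.Packs t b h B) →
    Pool.Agent.Lib.MP_6e81d8_ag.H39.Packs t c s (A ∪ B)ᶜ → Disjoint A B →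
    0 < h → h ≤ 1 → ((q : ℝ) * s = 1 ∨ (q : ℝ) * s = h) → a + b ≤ 9 → a + b * h + c * s ≤ 9 →
    3 * (d : ℝ) < ∑ i : Fin r, t i * (m i : ℝ) →
    ∃ F : MvPolynomial (Fin r × Fin 2) ℂ, F ≠ 0 ∧
      ∀ p : Fin r → Fin 2 → ℂ,
        MvPolynomial.eval (fun ij : Fin r × Fin 2 => p ij.1 ij.2) F ≠ 0 →
        MvPolynomial.restrictTotalDegree (Fin 2) ℂ d ⊓
          ⨅ i : Fin r, ((RingHom.ker (MvPolynomial.eval (p i))) ^ (m i)).restrictScalars ℂ = ⊥ :=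
  fun _ _ _ _ _ _ _ _ _ _ _ _ h1 h2 h3 hd h0 hh hq hw h9 h =>
    Pool.Agent.Lib.MP_6e81d8_ag.H39.three_strips h1 h2 h3 hd h0 hh hq hw h9 h

end Pool.Agent.Lib.MP_6e81d8_ag.H39.OldThreeStrips
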