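import Pool.Agent.Lib.MP_6e81d8_ag.H39.Fill

/-!
Examples of fillings.
-/

set_option autoImplicit false

namespace Pool.Agent.Lib.MP_6e81d8_ag.H39

open Finset

variable {ι : Type} [DecidableEq ι] {t : ι → ℝ}

lemma Packs.fills {w h : ℝ} {S : Finset ι} (H : Packs t w h S) : Fills t w h S := by
  induction H with
  | square i hi => exact .square i hi
  | beside _ _ hd h1 h2 => exact .beside h1 h2 hd
  | above _ _ hd h1 h2 => exact (Fills.beside h1.swap h2.swap hd).swap
  | enlarge _ h1 h2 h3 => exact h3.enlarge h1 h2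

/-- The hypotheses of the three-strip theorem give a filling of the square of side three. -/
lemma fills_three [Fintype ι] {A B : Finset ι} {a b h c s : ℝ} {q : ℕ}
    (h1 : A = ∅ ∧ a = 0 ∨ Packs t a 1 A) (h2 : B = ∅ ∧ b = 0 ∨ Packs t b h B)
    (h3 : Packs t c s (A ∪ B)ᶜ) (hd : Disjoint A B) (h0 : 0 < h) (hh : h ≤ 1)
    (hq : q * s = 1 ∨ q * s = h) (hw : a + b ≤ 9) (h9 : a + b * h + c * s ≤ 9) :
    Fills t 3 3 univ := by
  have := Fills.fold (w := 3) q (fun c => (h1.resolve_left fun d => c.ne_empty d.1).fills)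
    (fun c => (h2.resolve_left fun d => c.ne_empty d.1).fills) h3.fills hd disjoint_compl_right
    (h1.elim (fun c => c.2.ge) fun c => c.pos.1.le) (h2.elim (fun c => c.2.ge) fun c => c.pos.1.le)
    h0 hh hq (by norm_num) (by linarith) (by linarith)
  rwa [union_compl, mul_one] at this

/-- A thin strip can be refolded into any rectangle of the same area. -/
lemma Fills.refold {c s w h : ℝ} {S : Finset ι} (H : Fills t c s S) (hs : 0 < s) (h1 : 3 * s ≤ w)
    (h2 : 3 * s ≤ h) (h3 : c * s ≤ w * h) : Fills t w h S := by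
  have key : ∀ w h : ℝ, 3 * s ≤ h → h ≤ w → c * s ≤ w * h → Fills t w h S := by
    intro w h c1 c2 c3
    have := Fills.fold (A := ∅) (B := ∅) (a := 0) (b := 0) (u := h / 3) (v := s) (w := w) 1
      (fun c => absurd c not_nonempty_empty) (fun c => absurd c not_nonempty_empty) H
      (disjoint_empty_left _) (by simp) le_rfl le_rfl hs (by linarith) (Or.inr (by simp))
      (by linarith) (by linarith) (by linarith)
    rwa [empty_union, empty_union, mul_div_cancel₀ _ three_ne_zero] at this
  rcases le_total h w with c | c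
  · exact key w h h2 c h3
  · exact (key h w h1 c (by linarith)).swap

lemma fills_row {a : ℝ} (ha : 0 < a) {S : Finset ι} (hS : S.Nonempty) (h : ∀ i ∈ S, t i = a) :
    Fills t (∑ i ∈ S, t i) a S := by
  induction hS using Nonempty.cons_induction with
  | singleton i =>
    rw [sum_singleton, ← h i (mem_singleton_self i)]
    exact .square i (h i (mem_singleton_self i) ▸ ha)
  | cons i S hi _ ih =>
    have h1 := h i (mem_cons_self i S)
    have h2 := Fills.square (t := t) i (h1 ▸ ha)
    have h3 := Fills.beside (h1 ▸ h2 : Fills t (t i) a {i})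
      (ih fun j hj => h j (mem_cons_of_mem hj)) (disjoint_singleton_left.mpr hi)
    rwa [sum_cons, cons_eq_insert, insert_eq]

/-- Every size occurs often enough. -/
theorem fills_round {μ e : ℝ} {S : Finset ι} (hS : S.Nonempty) (h0 : ∀ i ∈ S, 0 < t i)
    (h1 : ∀ i ∈ S, t i ≤ μ) (h2 : ∀ i ∈ S, 9 * μ ≤ ∑ j ∈ S with t j = t i, t j)
    (h3 : 9 * μ ≤ e) (h4 : ∑ i ∈ S, t i ^ 2 ≤ e ^ 2) : Fills t e e S := by
  classical
  obtain ⟨i₀, hi₀⟩ := hS
  have hμ : 0 < 3 * μ := by linarith [h0 i₀ hi₀, h1 i₀ hi₀]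
  have one : ∀ a ∈ S.image t, Fills t ((∑ j ∈ S with t j = a, t j ^ 2) / (3 * μ)) (3 * μ)
      (S.filter fun j => t j = a) := by
    intro a ha
    obtain ⟨i, hi, rfl⟩ := mem_image.mp ha
    have c1 : ∑ j ∈ S with t j = t i, t j ^ 2 = (∑ j ∈ S with t j = t i, t j) * t i := by
      rw [sum_mul]
      exact sum_congr rfl fun j hj => by rw [sq, (mem_filter.mp hj).2]
    refine (fills_row (t := t) (S := S.filter fun j => t j = t i) (h0 i hi)
      ⟨i, mem_filter.mpr ⟨hi, rfl⟩⟩ fun j hj => (mem_filter.mp hj).2).refold (h := 3 * μ) (h0 i hi)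
      ?_ (by linarith [h1 i hi]) ?_
    · rw [le_div_iff₀ hμ, c1]
      linarith [mul_le_mul_of_nonneg_right (h2 i hi) (h0 i hi).le]
    · rw [div_mul_cancel₀ _ hμ.ne', c1]
  have all : ∀ T : Finset ℝ, T.Nonempty → T ⊆ S.image t →
      Fills t ((∑ j ∈ S with t j ∈ T, t j ^ 2) / (3 * μ)) (3 * μ) (S.filter fun j => t j ∈ T) := by
    intro T hT
    induction hT using Nonempty.cons_induction with
    | singleton a => simpa only [mem_singleton] using fun c => one a (c (mem_singleton_self a))
    | cons a T ha _ ih =>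
      intro c
      have c1 : Disjoint (S.filter fun j => t j = a) (S.filter fun j => t j ∈ T) :=
        disjoint_filter.mpr fun j _ c2 c3 => ha (c2 ▸ c3)
      have c2 := Fills.beside (one a (c (mem_cons_self a T)))
        (ih fun x hx => c (mem_cons_of_mem hx)) c1
      rw [← add_div, ← sum_union c1, ← filter_or] at c2
      simpa only [mem_cons] using c2
  have c := all _ ⟨_, mem_image_of_mem t hi₀⟩ subset_rfl
  rw [filter_true_of_mem fun j hj => mem_image_of_mem t hj] at c
  exact c.refold hμ (by linarith) (by linarith) (by rw [div_mul_cancel₀ _ hμ.ne', ← sq]; exact h4)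

end Pool.Agent.Lib.MP_6e81d8_ag.H39
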