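import Pool.Agent.Lib.MP_6e81d8_ag.H39.Wv
import Pool.Agent.Lib.MP_6e81d8_ag.H39.Defs

/-!
A weighted point splits into ordinary points along a guillotine packing.
-/

set_option autoImplicit false

namespace Pool.Agent.Lib.MP_6e81d8_ag.H39

open Polynomial Finset H88
open scoped Polynomial.Bivariate

variable {ι : Type} [DecidableEq ι]

lemma Packs.pos {t : ι → ℝ} {w h : ℝ} {S : Finset ι} (H : Packs t w h S) :
    0 < w ∧ 0 < h ∧ ∀ i ∈ S, 0 < t i := by
  induction H with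
  | square i hi => exact ⟨hi, hi, fun j hj => mem_singleton.mp hj ▸ hi⟩
  | beside _ _ _ h1 h2 =>
    exact ⟨add_pos h1.1 h2.1, h1.2.1, fun i hi => (mem_union.mp hi).elim (h1.2.2 i) (h2.2.2 i)⟩
  | above _ _ _ h1 h2 =>
    exact ⟨h1.1, add_pos h1.2.1 h2.2.1, fun i hi => (mem_union.mp hi).elim (h1.2.2 i) (h2.2.2 i)⟩
  | enlarge _ h1 h2 h3 => exact ⟨h3.1.trans_le h1, h3.2.1.trans_le h2, h3.2.2⟩

/-- The space of polynomials with the given multiplicities at the points indexed by `S`. -/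
def vanS (m : ι → ℕ) (p q : ι → ℂ) (S : Finset ι) : Submodule ℂ ℂ[X][Y] where
  carrier := {f | ∀ i ∈ S, Van (m i) (p i) (q i) f}
  add_mem' := fun hf hg i hi => (hf i hi).add (hg i hi)
  zero_mem' := fun _ _ => van_zero _ _ _
  smul_mem' := fun c f hf i hi => by
    rw [smul_eq_CC]
    exact (hf i hi).mul_left _

/-- The conditions `W` can be replaced by ordinary points indexed by `S`. -/
def Good (m : ι → ℕ) (W : Submodule ℂ ℂ[X][Y]) (S : Finset ι) : Prop :=
  ∀ V : Submodule ℂ ℂ[X][Y], FiniteDimensional ℂ V → (∀ f ∈ V, f ∈ W → f = 0) →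
    ∃ p q : ι → ℂ, (∀ i, p i ≠ 0) ∧ ∀ f ∈ V, f ∈ vanS m p q S → f = 0

lemma glue {m : ι → ℕ} {W₁ W₂ : Submodule ℂ ℂ[X][Y]} {S₁ S₂ : Finset ι} (h1 : Good m W₁ S₁)
    (h2 : Good m W₂ S₂) (hd : Disjoint S₁ S₂) : Good m (W₁ ⊓ W₂) (S₁ ∪ S₂) := by
  intro V hV H
  obtain ⟨p₂, q₂, a2, b2⟩ := h2 (V ⊓ W₁) (Submodule.finiteDimensional_of_le inf_le_left)
    fun f hf hf2 => H f hf.1 ⟨hf.2, hf2⟩
  obtain ⟨p₁, q₁, a1, b1⟩ := h1 (V ⊓ vanS m p₂ q₂ S₂)
    (Submodule.finiteDimensional_of_le inf_le_left) fun f hf hf1 => b2 f ⟨hf.1, hf1⟩ hf.2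
  refine ⟨fun i => if i ∈ S₁ then p₁ i else p₂ i, fun i => if i ∈ S₁ then q₁ i else q₂ i,
    fun i => ?_, fun f hf hv => b1 f ⟨hf, fun i hi => ?_⟩ fun i hi => ?_⟩
  · dsimp only
    split_ifs
    · exact a1 i
    · exact a2 i
  · have := hv i (mem_union_right _ hi)
    simpa only [if_neg (disjoint_right.mp hd hi)] using this
  · have := hv i (mem_union_left _ hi)
    simpa only [if_pos hi] using this

theorem packs_good {t : ι → ℝ} (m : ι → ℕ) {w h : ℝ} {S : Finset ι} (H : Packs t w h S) :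
    ∀ a b : ℂ, a ≠ 0 →
      Good m (zvS (fun i j => h * i + w * j < ∑ k ∈ S, t k * m k) a b) S := by
  induction H with
  | square k hk =>
    intro a b ha V _ H
    refine ⟨fun _ => a, fun _ => b, fun _ => ha, fun f hf hv => H f hf fun i j hij => ?_⟩
    refine van_iff_cf.mp (hv k (mem_singleton_self k)) i j ?_
    rw [sum_singleton, ← mul_add] at hij
    exact_mod_cast lt_of_mul_lt_mul_left hij hk.le
  | @beside w₁ w₂ h S₁ S₂ p1 p2 hd h1 h2 =>
    intro a b ha V hV H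
    have hh := p2.pos.2.1
    obtain ⟨u, hu, H'⟩ := collide_h (V := V)
      (Z₁ := fun i j => h * i + w₁ * j < ∑ k ∈ S₁, t k * m k)
      (bdd_tri p2.pos.1 hh (∑ k ∈ S₂, t k * m k)) (fun i j hij => by
        rw [sum_union hd] at hij
        obtain ⟨e₁, e₂, c1, c2, c3⟩ := split_lt (i := i)
          (θ₁ := (∑ k ∈ S₁, t k * m k - w₁ * j) / h) (θ₂ := (∑ k ∈ S₂, t k * m k - w₂ * j) / h) (by
            rw [← add_div, lt_div_iff₀ hh]
            linarith)
        refine ⟨e₁, e₂, c1, fun k hk => ?_, fun k hk => ?_⟩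
        · have := (lt_div_iff₀ hh).mp (c2 k hk)
          linarith
        · have := (lt_div_iff₀ hh).mp (c3 k hk)
          linarith) H
    exact glue (h1 a b ha) (h2 (a + u) b hu) hd V hV fun f hf hw => H' f hf hw.1 hw.2
  | @above w h₁ h₂ S₁ S₂ p1 p2 hd h1 h2 =>
    intro a b ha V hV H
    have hh := p2.pos.1
    obtain ⟨u, H'⟩ := collide_v (V := V)
      (Z₁ := fun i j => h₁ * i + w * j < ∑ k ∈ S₁, t k * m k)
      (bdd_tri hh p2.pos.2.1 (∑ k ∈ S₂, t k * m k)) (fun i j hij => by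
        rw [sum_union hd] at hij
        obtain ⟨e₁, e₂, c1, c2, c3⟩ := split_lt (i := j)
          (θ₁ := (∑ k ∈ S₁, t k * m k - h₁ * i) / w) (θ₂ := (∑ k ∈ S₂, t k * m k - h₂ * i) / w) (by
            rw [← add_div, lt_div_iff₀ hh]
            linarith)
        refine ⟨e₁, e₂, c1, fun k hk => ?_, fun k hk => ?_⟩
        · have := (lt_div_iff₀ hh).mp (c2 k hk)
          linarith
        · have := (lt_div_iff₀ hh).mp (c3 k hk)
          linarith) H
    exact glue (h1 a b ha) (h2 a (b + u) ha) hd V hV fun f hf hw => H' f hf hw.1 hw.2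
  | @enlarge w h w' h' S _ c1 c2 ih =>
    intro a b ha V hV H
    refine ih a b ha V hV fun f hf hw => H f hf fun i j hij => hw i j ?_
    have := mul_le_mul_of_nonneg_right c1 (Nat.cast_nonneg (α := ℝ) j)
    have := mul_le_mul_of_nonneg_right c2 (Nat.cast_nonneg (α := ℝ) i)
    linarith

/-- The space of polynomials with monomials in `D`. -/
def supS (D : ℕ → ℕ → Prop) : Submodule ℂ ℂ[X][Y] where
  carrier := {f | Sup D f}
  add_mem' := fun {f g} hf hg i j hz => by
    by_cases h : cf f i j = 0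
    · rw [cf_add, h, zero_add] at hz
      exact hg i j hz
    · exact hf i j h
  zero_mem' := fun i j hz => absurd (cf_zero i j) hz
  smul_mem' := fun c f hf i j hz => by
    rw [cf_smul] at hz
    exact hf i j (right_ne_zero_of_mul hz)

lemma supS_finite {D : ℕ → ℕ → Prop} (hD : Bdd D) : FiniteDimensional ℂ (supS D) := by
  obtain ⟨N, hN⟩ := hD
  let φ : supS D →ₗ[ℂ] (Fin N × Fin N → ℂ) :=
    { toFun := fun f x => cf (f : ℂ[X][Y]) x.1 x.2
      map_add' := fun f g => funext fun x => cf_add _ _ _ _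
      map_smul' := fun c f => funext fun x => cf_smul _ _ _ _ }
  refine FiniteDimensional.of_injective φ fun f g hf => ?_
  refine Subtype.ext (cf_ext fun i k => ?_)
  by_cases h : D i k
  · exact congrFun hf (⟨i, (hN i k h).1⟩, ⟨k, (hN i k h).2⟩)
  · rw [of_not_not (mt (f.2 i k) h), of_not_not (mt (g.2 i k) h)]

end Pool.Agent.Lib.MP_6e81d8_ag.H39
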