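import Pool.Agent.Lib.MP_6e81d8_ag.H88Limit

/-!
Vanishing of prescribed Taylor coefficients, and collisions of points on a horizontal or
vertical line.
-/

set_option autoImplicit false

namespace Pool.Agent.Lib.MP_6e81d8_ag.H39

open Polynomial Finset H88
open scoped Polynomial.Bivariate

section Ring

variable {A : Type*} [CommRing A]

/-- The Taylor coefficients at `(a, b)` with exponents in `Z` vanish. -/
def ZV (Z : ℕ → ℕ → Prop) (a b : A) (f : A[X][Y]) : Prop :=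
  ∀ i j, Z i j → cf (sh a b f) i j = 0

lemma swap_sh (a b : A) (f : A[X][Y]) :
    Bivariate.swap (sh a b f) = sh b a (Bivariate.swap f) := by
  induction f using Polynomial.induction_on' with
  | add p q hp hq => simp only [map_add, hp, hq]
  | monomial n p =>
    induction p using Polynomial.induction_on' with
    | add p q hp hq => simp only [map_add, hp, hq]
    | monomial l c =>
      rw [monomial_monomial_eq]
      simp only [map_mul, map_pow, sh_C, sh_Y, C_comp, X_comp, map_add, Bivariate.swap_C_C,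
        Bivariate.swap_X, Bivariate.swap_Y]

lemma zv_swap {Z : ℕ → ℕ → Prop} {a b : A} {f : A[X][Y]} (h : ZV Z a b f) :
    ZV (fun i j => Z j i) b a (Bivariate.swap f) := by
  intro i j hz
  rw [← swap_sh, cf_swap]
  exact h j i hz

lemma row_dvd_iff {a b : A} {f : A[X][Y]} {j e : ℕ} :
    (∀ i < e, cf (sh a b f) i j = 0) ↔ (X - C a) ^ e ∣ (sh 0 b f).coeff j := by
  have h0 : (sh a b f).coeff j = ((sh 0 b f).coeff j).comp (X + C a) := by
    have : sh a b f = sh a 0 (sh 0 b f) := by rw [sh_sh, add_zero, zero_add]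
    rw [this]
    generalize sh 0 b f = g
    rw [sh, C_0, C_0, add_zero, coeff_sub2_Y]
  unfold cf
  rw [h0, ← X_pow_dvd_iff]
  generalize (sh 0 b f).coeff j = p
  constructor
  · rintro ⟨u, hu⟩
    refine ⟨u.comp (X - C a), ?_⟩
    have := congrArg (fun p : A[X] => p.comp (X - C a)) hu
    simpa [comp_assoc] using this
  · rintro ⟨u, hu⟩
    refine ⟨u.comp (X + C a), ?_⟩
    rw [hu]
    simp

lemma sh_derivative (a b : A) (f : A[X][Y]) :
    sh a b (derivative f) = derivative (sh a b f) := by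
  induction f using Polynomial.induction_on' with
  | add p q hp hq => simp only [map_add, hp, hq]
  | monomial n p =>
    rw [← C_mul_X_pow_eq_monomial]
    simp [derivative_pow]

lemma cf_derivative (g : A[X][Y]) (i j : ℕ) :
    cf (derivative g) i j = cf g i (j + 1) * ((j : A) + 1) := by
  have : ((j : A[X]) + 1) = C ((j : A) + 1) := by simp
  rw [cf, coeff_derivative, this, coeff_mul_C, cf]

lemma exists_euler_zv {w h M : ℝ} (hw : 0 ≤ w) {a b : A} {G : A[X][Y]}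
    (hG : ZV (fun i j => h * i + w * j < M) a b G) (U : Finset ℕ) :
    ∃ G' : A[X][Y], ZV (fun i j => h * i + w * j < M - w * U.card) a b G' ∧
      ∀ k, G'.coeff k = C (∏ u ∈ U, ((k : A) - u)) * G.coeff k := by
  induction U using Finset.induction_on with
  | empty => exact ⟨G, by simpa using hG, by simp⟩
  | insert u U hu ih =>
    obtain ⟨G', h1, h2⟩ := ih
    refine ⟨Y * derivative G' + C (C (-(u : A))) * G', ?_, ?_⟩
    · intro i j hij
      rw [card_insert_of_notMem hu] at hij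
      push_cast at hij
      rw [map_add, map_mul, map_mul, sh_Y, sh_C, C_comp, sh_derivative, add_mul, cf_add, cf_add,
        cf_CC_mul, cf_CC_mul, cf_derivative, h1 i j (by linarith),
        h1 i (j + 1) (by push_cast; linarith)]
      rcases j with _ | j
      · simp [cf]
      · have := cf_derivative (sh a b G') i j
        rw [h1 i (j + 1) (by linarith)] at this
        unfold cf at this ⊢
        rw [coeff_X_mul, this]
        simp
    · intro k
      rw [prod_insert hu, coeff_add, coeff_C_mul, C_mul, mul_assoc, ← h2]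
      rcases k with _ | k
      · simp
      · rw [coeff_X_mul, coeff_derivative]
        simp only [C_sub, C_neg, map_natCast, Nat.cast_add, Nat.cast_one, C_add, C_1]
        ring

end Ring

lemma cf_smul (c : ℂ) (f : ℂ[X][Y]) (i k : ℕ) : cf (c • f) i k = c * cf f i k := by simp [cf]

lemma smul_eq_CC (c : ℂ) (f : ℂ[X][Y]) : c • f = C (C c) * f :=
  cf_ext fun i k => by rw [cf_smul, cf_CC_mul]

/-- The space of polynomials with vanishing Taylor coefficients. -/
def zvS (Z : ℕ → ℕ → Prop) (a b : ℂ) : Submodule ℂ ℂ[X][Y] where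
  carrier := {f | ZV Z a b f}
  add_mem' := fun {f g} hf hg i j hz => by
    rw [map_add, cf_add, hf i j hz, hg i j hz, add_zero]
  zero_mem' := fun i j _ => by rw [map_zero, cf_zero]
  smul_mem' := fun c f hf i j hz => by
    rw [smul_eq_CC, map_mul, sh_C, C_comp, cf_CC_mul, hf i j hz, mul_zero]

lemma core (a : ℂ) {P : ℂ[X][X]} {e₁ e₂ : ℕ} (h1 : (X - C (C a)) ^ e₁ ∣ P)
    (h2 : (X - C (C a + X)) ^ e₂ ∣ P) :
    (X - C a) ^ (e₁ + e₂) ∣ P.map (evalRingHom 0) := by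
  obtain ⟨Q, rfl⟩ := h1
  have hp := prime_X_sub_C (C a + X : ℂ[X])
  obtain ⟨R, rfl⟩ := hp.pow_dvd_of_dvd_mul_left e₂ (fun h => by
    have := dvd_iff_isRoot.mp (hp.dvd_of_dvd_pow h)
    simp at this) h2
  refine ⟨R.map (evalRingHom 0), ?_⟩
  simp [pow_add, mul_assoc]

lemma exists_basis {M : Type} [AddCommGroup M] [Module ℂ M] (V : Submodule ℂ M)
    [FiniteDimensional ℂ V] : ∃ (n : ℕ) (u : Fin n → M), (∀ x, u x ∈ V) ∧
      (∀ c : Fin n → ℂ, ∑ x, c x • u x = 0 → ∀ x, c x = 0) ∧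
      ∀ f ∈ V, ∃ c : Fin n → ℂ, f = ∑ x, c x • u x := by
  let e := Module.finBasis ℂ V
  refine ⟨_, fun x => e x, fun x => (e x).2, fun c hc => ?_, fun f hf => ⟨e.repr ⟨f, hf⟩, ?_⟩⟩
  · refine Fintype.linearIndependent_iff.mp e.linearIndependent c ?_
    rw [← Submodule.coe_eq_zero]
    simpa using hc
  · have := congrArg (fun v : V => (v : M)) (e.sum_repr ⟨f, hf⟩)
    simpa only [Submodule.coe_sum, Submodule.coe_smul] using this.symm

theorem special {V : Submodule ℂ ℂ[X][Y]} [FiniteDimensional ℂ V] {Z : ℕ → ℕ → Prop}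
    (hZ : Bdd Z) (a b : ℂ[X])
    (h : ∀ G : ℂ[X][X][Y], (∀ t : ℂ, G.map (mapRingHom (evalRingHom t)) ∈ V) → ZV Z a b G →
      G.map (mapRingHom (evalRingHom 0)) = 0) {E : ℂ[X]} (hE : E ≠ 0) :
    ∃ t : ℂ, E.eval t ≠ 0 ∧ ∀ f ∈ V, ZV Z (a.eval t) (b.eval t) f → f = 0 := by
  classical
  obtain ⟨s, hs⟩ := hZ.exists_finset
  obtain ⟨n, e, e1, e2, e3⟩ := exists_basis V
  let g : Fin n → ℂ[X][X][Y] := fun x => (e x).map (mapRingHom C)
  have hg : ∀ x (t : ℂ), (g x).map (mapRingHom (evalRingHom t)) = e x := by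
    intro x t
    refine cf_ext fun i k => ?_
    simp only [g, cf_map, coe_evalRingHom, eval_C]
  let M : Matrix s (Fin n) ℂ[X] := Matrix.of fun z x => cf (sh a b (g x)) z.1.1 z.1.2
  have hM : ∀ c, M.mulVec c = 0 → c = 0 := by
    intro c hc
    by_contra hne
    have hex : ∃ v, ∃ x, (c x).coeff v ≠ 0 := by
      obtain ⟨x, hx⟩ := Function.ne_iff.mp hne
      exact ⟨_, x, leadingCoeff_ne_zero.mpr hx⟩
    obtain ⟨x₀, hx₀⟩ := Nat.find_spec hex
    have hdvd : ∀ x, X ^ Nat.find hex ∣ c x := fun x => X_pow_dvd_iff.mpr fun u hu => by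
      by_contra h1
      exact Nat.find_min hex hu ⟨x, h1⟩
    choose c' hc' using hdvd
    have hev : ∀ t : ℂ, (∑ x, C (C (c' x)) * g x : ℂ[X][X][Y]).map (mapRingHom (evalRingHom t))
        = ∑ x, (c' x).eval t • e x := by
      intro t
      simp only [Polynomial.map_sum, Polynomial.map_mul, hg, map_C, coe_mapRingHom,
        coe_evalRingHom, smul_eq_CC]
    have h1 := h (∑ x, C (C (c' x)) * g x)
      (fun t => by rw [hev]; exact V.sum_mem fun x _ => V.smul_mem _ (e1 x)) ?_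
    · rw [hev] at h1
      have h2 := e2 _ h1 x₀
      apply hx₀
      have h3 := coeff_X_pow_mul (c' x₀) (Nat.find hex) 0
      rw [zero_add, ← hc'] at h3
      rw [h3, coeff_zero_eq_eval_zero, h2]
    · intro i j hz
      have h2 := congrFun hc ⟨(i, j), (hs i j).mpr hz⟩
      simp only [M, Matrix.mulVec, dotProduct, Matrix.of_apply, Pi.zero_apply] at h2
      have h3 : (X : ℂ[X]) ^ Nat.find hex * cf (sh a b (∑ x, C (C (c' x)) * g x)) i j = 0 := by
        rw [← h2, map_sum, cf_sum, mul_sum]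
        refine sum_congr rfl fun x _ => ?_
        rw [map_mul, sh_C, C_comp, cf_CC_mul, hc' x]
        ring
      exact (mul_eq_zero.mp h3).resolve_left (pow_ne_zero _ X_ne_zero)
  obtain ⟨D, hD, H⟩ := ker_trivial_open M hM
  obtain ⟨t, ht⟩ := exists_eval_ne_zero (mul_ne_zero hE hD)
  rw [eval_mul] at ht
  refine ⟨t, left_ne_zero_of_mul ht, fun f hf hv => ?_⟩
  obtain ⟨c, h1⟩ := e3 f hf
  have h2 := H ℂ (evalRingHom t) (right_ne_zero_of_mul ht) c ?_
  · rw [h1, h2]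
    simp
  · funext z
    have h3 := hv z.1.1 z.1.2 ((hs _ _).mp z.2)
    rw [h1, map_sum, cf_sum] at h3
    simp only [M, Matrix.mulVec, dotProduct, Matrix.of_apply, Matrix.map_apply, Pi.zero_apply]
    rw [← h3]
    refine sum_congr rfl fun x _ => ?_
    rw [smul_eq_CC, map_mul, sh_C, C_comp, cf_CC_mul, ← cf_map, sh_map, hg, mul_comm]
    rfl

theorem collide_h {V : Submodule ℂ ℂ[X][Y]} [FiniteDimensional ℂ V] {Z₁ Z₂ Z : ℕ → ℕ → Prop}
    (hb : Bdd Z₂)
    (hZ : ∀ i j, Z i j → ∃ e₁ e₂, i < e₁ + e₂ ∧ (∀ k < e₁, Z₁ k j) ∧ ∀ k < e₂, Z₂ k j)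
    {a b : ℂ} (H : ∀ f ∈ V, ZV Z a b f → f = 0) :
    ∃ t : ℂ, a + t ≠ 0 ∧ ∀ f ∈ V, ZV Z₁ a b f → ZV Z₂ (a + t) b f → f = 0 := by
  have : FiniteDimensional ℂ (V ⊓ zvS Z₁ a b : Submodule ℂ ℂ[X][Y]) :=
    Submodule.finiteDimensional_of_le inf_le_left
  have key := special (V := V ⊓ zvS Z₁ a b) hb (C a + X) (C b) ?_
    (E := X + C a) (X_add_C_ne_zero a)
  · obtain ⟨t, h1, h2⟩ := key
    refine ⟨t, by simpa [add_comm] using h1, fun f hf h3 h4 => h2 f ⟨hf, h3⟩ ?_⟩
    simpa using h4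
  · intro G h1 h2
    refine H _ (h1 0).1 fun i j hz => ?_
    obtain ⟨e₁, e₂, h3, h4, h5⟩ := hZ i j hz
    have h6 : (X - C (C a)) ^ e₁ ∣ (sh 0 (C b) G).coeff j := row_dvd_iff.mp fun k hk => by
      apply Polynomial.funext
      intro t
      have := (h1 t).2 k j (h4 k hk)
      rw [eval_zero, ← this, ← coe_evalRingHom, ← cf_map, sh_map]
      simp
    have h7 := core a h6 (row_dvd_iff.mp fun k hk => h2 k j (h5 k hk))
    refine row_dvd_iff.mpr ?_ i h3
    have h8 := congrArg (fun p : ℂ[X][Y] => p.coeff j) (sh_map (evalRingHom 0) 0 (C b) G)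
    simp only [coeff_map, coe_mapRingHom, map_zero, coe_evalRingHom, eval_C] at h8
    rwa [h8] at h7

theorem collide_v {V : Submodule ℂ ℂ[X][Y]} [FiniteDimensional ℂ V] {Z₁ Z₂ Z : ℕ → ℕ → Prop}
    (hb : Bdd Z₂)
    (hZ : ∀ i j, Z i j → ∃ e₁ e₂, j < e₁ + e₂ ∧ (∀ k < e₁, Z₁ i k) ∧ ∀ k < e₂, Z₂ i k)
    {a b : ℂ} (H : ∀ f ∈ V, ZV Z a b f → f = 0) :
    ∃ t : ℂ, ∀ f ∈ V, ZV Z₁ a b f → ZV Z₂ a (b + t) f → f = 0 := by
  obtain ⟨N, hN⟩ := hb
  obtain ⟨t, -, h⟩ := collide_h (V := V.map (Bivariate.swap (R := ℂ)).toLinearMap)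
    (Z₁ := fun i j => Z₁ j i) (Z₂ := fun i j => Z₂ j i) (Z := fun i j => Z j i)
    ⟨N, fun i k h => (hN k i h).symm⟩ (fun i j h => hZ j i h) (a := b) (b := a) (by
      rintro _ ⟨f, hf, rfl⟩ h
      have h1 := zv_swap h
      have h2 : Bivariate.swap ((Bivariate.swap (R := ℂ)).toLinearMap f) = f :=
        Bivariate.swap_swap_apply f
      rw [h2] at h1
      rw [H f hf h1, map_zero])
  refine ⟨t, fun f hf h1 h2 => ?_⟩
  exact (map_eq_zero_iff _ (Bivariate.swap (R := ℂ)).injective).mp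
    (h _ ⟨f, hf, rfl⟩ (zv_swap h1) (zv_swap h2))

lemma split_lt {θ₁ θ₂ : ℝ} {i : ℕ} (h : (i : ℝ) < θ₁ + θ₂) :
    ∃ e₁ e₂ : ℕ, i < e₁ + e₂ ∧ (∀ k < e₁, ((k : ℕ) : ℝ) < θ₁) ∧ ∀ k < e₂, ((k : ℕ) : ℝ) < θ₂ := by
  refine ⟨⌈θ₁⌉₊, ⌈θ₂⌉₊, ?_, fun k hk => Nat.lt_ceil.mp hk, fun k hk => Nat.lt_ceil.mp hk⟩
  have h1 := Nat.le_ceil θ₁
  have h2 := Nat.le_ceil θ₂
  exact_mod_cast (by linarith : (i : ℝ) < (⌈θ₁⌉₊ : ℝ) + (⌈θ₂⌉₊ : ℝ))

lemma bdd_tri {w h : ℝ} (hw : 0 < w) (hh : 0 < h) (M : ℝ) :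
    Bdd (fun i j => h * i + w * j < M) := by
  obtain ⟨N, hN⟩ := exists_nat_gt (max (M / h) (M / w))
  refine ⟨N, fun i j hij => ⟨?_, ?_⟩⟩
  · have h1 : (i : ℝ) < M / h := by
      rw [lt_div_iff₀ hh]
      nlinarith [mul_nonneg hw.le (Nat.cast_nonneg (α := ℝ) j)]
    exact_mod_cast h1.trans ((le_max_left _ _).trans_lt hN)
  · have h1 : (j : ℝ) < M / w := by
      rw [lt_div_iff₀ hw]
      nlinarith [mul_nonneg hh.le (Nat.cast_nonneg (α := ℝ) i)]
    exact_mod_cast h1.trans ((le_max_right _ _).trans_lt hN)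

end Pool.Agent.Lib.MP_6e81d8_ag.H39
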